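import Pool.Agent.Helper11.In.Types

/-! The ring of p-adic integers is a discrete valuation ring in the field of p-adic numbers in which
the field of rational numbers is dense. -/

set_option autoImplicit false

namespace Pool.Agent.Helper32

open Pool.Agent.Helper11.In

/-- the ring of p-adic integers as a valuation subring of the field of p-adic numbers -/
def padicRing (p : ℕ) [Fact p.Prime] : ValuationSubring ℚ_[p] where
  carrier := {x | ‖x‖ ≤ 1}
  mul_mem' := fun {a b} ha hb => (PadicInt.subring p).mul_mem ha hb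
  one_mem' := (PadicInt.subring p).one_mem
  add_mem' := fun {a b} ha hb => (PadicInt.subring p).add_mem ha hb
  zero_mem' := (PadicInt.subring p).zero_mem
  neg_mem' := fun {a} ha => (PadicInt.subring p).neg_mem ha
  mem_or_inv_mem' := fun x => by
    rcases le_total ‖x‖ 1 with h | h
    · exact Or.inl h
    · refine Or.inr ?_
      change ‖x⁻¹‖ ≤ 1
      rw [norm_inv]
      exact inv_le_one_of_one_le₀ h

theorem mem_padicRing (p : ℕ) [Fact p.Prime] (x : ℚ_[p]) : x ∈ padicRing p ↔ ‖x‖ ≤ 1 := Iff.rfl

/-- the identity as a ring isomorphism -/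
def padicEquiv (p : ℕ) [Fact p.Prime] : ℤ_[p] ≃+* padicRing p where
  toFun := fun x => ⟨x.1, x.2⟩
  invFun := fun x => ⟨x.1, x.2⟩
  left_inv := fun _ => rfl
  right_inv := fun _ => rfl
  map_mul' := fun _ _ => rfl
  map_add' := fun _ _ => rfl

theorem isDenseSubfield_padic (p : ℕ) [Fact p.Prime] :
    IsDenseSubfield (⊥ : Subfield ℚ_[p]) (padicRing p) where
  discrete := IsDiscreteValuationRing.RingEquivClass.isDiscreteValuationRing (padicEquiv p)
  dense := fun x a ha => by
    obtain ⟨r, hr⟩ := Padic.rat_dense p x (norm_pos_iff.mpr ha)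
    refine ⟨(r : ℚ_[p]), SubfieldClass.ratCast_mem _ r, (x - r) / a, ?_, ?_⟩
    · rw [mem_padicRing, norm_div]
      exact div_le_one_of_le₀ hr.le (norm_nonneg a)
    · field_simp

end Pool.Agent.Helper32
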