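import Mathlib

open MvPolynomial

namespace Pool.Agent.Helper32.NodeRing

/-- Polynomial ring in countably many variables over the complex numbers. -/
abbrev R := MvPolynomial ℕ ℂ

/-- Substitution of the constant `a` for the variable `t_i`. -/
noncomputable def ev (i : ℕ) (a : ℂ) : R →ₐ[ℂ] R :=
  aeval (fun j => if j = i then C a else X j)

@[simp] lemma ev_C (i : ℕ) (a c : ℂ) : ev i a (C c) = C c := by simp [ev, algebraMap_eq]

@[simp] lemma ev_X_self (i : ℕ) (a : ℂ) : ev i a (X i) = C a := by simp [ev]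

lemma ev_X_ne {i j : ℕ} (h : j ≠ i) (a : ℂ) : ev i a (X j) = X j := by simp [ev, h]

lemma ev_comm {i j : ℕ} (h : i ≠ j) (a b : ℂ) (f : R) :
    ev i a (ev j b f) = ev j b (ev i a f) := by
  have : (ev i a).comp (ev j b) = (ev j b).comp (ev i a) := by
    apply MvPolynomial.algHom_ext
    intro l
    by_cases h1 : l = i
    · subst h1
      simp [ev_X_ne h]
    · by_cases h2 : l = j
      · subst h2
        simp [ev_X_ne h1]
      · simp [ev_X_ne h1, ev_X_ne h2]
  exact DFunLike.congr_fun this f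

lemma ev_ev_self (i : ℕ) (a b : ℂ) (f : R) : ev i a (ev i b f) = ev i b f := by
  have : (ev i a).comp (ev i b) = (ev i b) := by
    apply MvPolynomial.algHom_ext
    intro l
    by_cases h1 : l = i
    · subst h1
      simp
    · simp [ev_X_ne h1]
  exact DFunLike.congr_fun this f

lemma X_sub_C_dvd (i : ℕ) (a : ℂ) (f : R) : (X i - C a : R) ∣ f - ev i a f := by
  induction f using MvPolynomial.induction_on with
  | C c => simp
  | add p q hp hq =>
    have : p + q - ev i a (p + q) = (p - ev i a p) + (q - ev i a q) := by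
      rw [map_add]; ring
    rw [this]
    exact dvd_add hp hq
  | mul_X p j hp =>
    by_cases h : j = i
    · subst h
      have : p * X j - ev j a (p * X j) = (p - ev j a p) * X j + ev j a p * (X j - C a) := by
        rw [map_mul, ev_X_self]; ring
      rw [this]
      exact dvd_add (hp.mul_right _) (Dvd.intro_left _ rfl)
    · have : p * X j - ev i a (p * X j) = (p - ev i a p) * X j := by
        rw [map_mul, ev_X_ne h]; ring
      rw [this]
      exact hp.mul_right _

/-- `s_i = t_i (t_i - 1)`. -/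
noncomputable def sR (i : ℕ) : R := X i * (X i - 1)

lemma ev_sR_zero (i : ℕ) : ev i 0 (sR i) = 0 := by simp [sR]

lemma ev_sR_one (i : ℕ) : ev i 1 (sR i) = 0 := by simp [sR]

lemma ev_sR_ne {i j : ℕ} (h : j ≠ i) (a : ℂ) : ev i a (sR j) = sR j := by
  simp [sR, ev_X_ne h]

lemma sR_dvd {i : ℕ} {f : R} (h0 : ev i 0 f = 0) (h1 : ev i 1 f = 0) : sR i ∣ f := by
  have e0 := X_sub_C_dvd i 0 f
  rw [h0, sub_zero, C_0, sub_zero] at e0
  obtain ⟨g, rfl⟩ := e0
  have e1 : ev i 1 g = 0 := by
    simpa using h1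
  have e2 := X_sub_C_dvd i 1 g
  rw [e1, sub_zero, C_1] at e2
  exact mul_dvd_mul_left _ e2

lemma sR_ne_zero (i : ℕ) : sR i ≠ 0 := by
  intro h
  have := congrArg (MvPolynomial.eval (fun _ => (2 : ℂ))) h
  norm_num [sR] at this

/-- The substitution `t_i ↦ s_i`. -/
noncomputable def phi : R →ₐ[ℂ] R := aeval sR

lemma phi_X (i : ℕ) : phi (X i) = sR i := by simp [phi]

lemma phi_injective : Function.Injective phi := by
  rw [injective_iff_map_eq_zero]
  intro p hp
  apply MvPolynomial.funext
  intro x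
  rw [map_zero]
  -- choose y with y^2 - y = x
  have hy : ∀ i, ∃ y : ℂ, y * (y - 1) = x i := by
    intro i
    obtain ⟨y, hy⟩ := IsAlgClosed.exists_pow_nat_eq (x i + 1 / 4) (n := 2) (by norm_num)
    refine ⟨y + 1 / 2, ?_⟩
    have : (y + 1 / 2) * (y + 1 / 2 - 1) = y ^ 2 - 1 / 4 := by ring
    rw [this, hy]; ring
  choose y hy using hy
  have h2 : (MvPolynomial.eval y) (phi p) = MvPolynomial.eval x p := by
    have : (MvPolynomial.aeval (R := ℂ) y).comp phi = (MvPolynomial.aeval (R := ℂ) x) := by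
      apply MvPolynomial.algHom_ext
      intro l
      simp [phi_X, sR, hy]
    have h3 := DFunLike.congr_fun this p
    simpa [MvPolynomial.coe_aeval_eq_eval] using h3
  rw [← h2, hp, map_zero]

lemma ev_phi (i : ℕ) (p : R) : ev i 0 (phi p) = phi (ev i 0 p) := by
  have : (ev i 0).comp phi = phi.comp (ev i 0) := by
    apply MvPolynomial.algHom_ext
    intro l
    by_cases h : l = i
    · subst h
      simp [phi_X, ev_sR_zero]
    · simp [phi_X, ev_sR_ne h, ev_X_ne h]
  exact DFunLike.congr_fun this p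

lemma ev_phi_one (i : ℕ) (p : R) : ev i 1 (phi p) = phi (ev i 0 p) := by
  have : (ev i 1).comp phi = phi.comp (ev i 0) := by
    apply MvPolynomial.algHom_ext
    intro l
    by_cases h : l = i
    · subst h
      simp [phi_X, ev_sR_one]
    · simp [phi_X, ev_sR_ne h, ev_X_ne h]
  exact DFunLike.congr_fun this p

/-- The ring `A` of all polynomials taking equal values at `t_i = 0` and `t_i = 1`, for all `i`. -/
noncomputable def A : Subalgebra ℂ R := ⨅ i, AlgHom.equalizer (ev i 0) (ev i 1)

lemma mem_A {f : R} : f ∈ A ↔ ∀ i, ev i 0 f = ev i 1 f := by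
  simp [A, Algebra.mem_iInf, AlgHom.mem_equalizer]

lemma phi_mem (p : R) : phi p ∈ A := by
  rw [mem_A]
  intro i
  rw [ev_phi, ev_phi_one]

lemma ev_mem (i : ℕ) {f : R} (hf : f ∈ A) : ev i 0 f ∈ A := by
  rw [mem_A] at *
  intro j
  by_cases h : j = i
  · subst h
    rw [ev_ev_self, ev_ev_self]
  · rw [ev_comm h, ev_comm h, hf j]

/-- The retraction `ρ_i : A → A`, setting `t_i = 0`. -/
noncomputable def rho (i : ℕ) : A →ₐ[ℂ] A :=
  ((ev i 0).comp A.val).codRestrict A (fun f => ev_mem i f.2)

@[simp] lemma coe_rho (i : ℕ) (f : A) : ((rho i f : A) : R) = ev i 0 (f : R) := rfl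

lemma sR_mem (i : ℕ) : sR i ∈ A := by
  rw [← phi_X]; exact phi_mem _

lemma uR_mem (i : ℕ) : X i * sR i ∈ A := by
  rw [mem_A]
  intro j
  by_cases h : j = i
  · subst h
    simp [ev_sR_zero, ev_sR_one]
  · rw [map_mul, map_mul, ev_sR_ne (Ne.symm h), ev_sR_ne (Ne.symm h), ev_X_ne (Ne.symm h),
      ev_X_ne (Ne.symm h)]

noncomputable def s (i : ℕ) : A := ⟨sR i, sR_mem i⟩
noncomputable def u (i : ℕ) : A := ⟨X i * sR i, uR_mem i⟩

@[simp] lemma coe_s (i : ℕ) : (s i : R) = sR i := rfl
@[simp] lemma coe_u (i : ℕ) : (u i : R) = X i * sR i := rfl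

lemma rho_s_self (i : ℕ) : rho i (s i) = 0 := by
  ext1; simp [ev_sR_zero]

lemma rho_u_self (i : ℕ) : rho i (u i) = 0 := by
  ext1; simp [ev_sR_zero]

lemma rho_s_ne {i j : ℕ} (h : j ≠ i) : rho i (s j) = s j := by
  ext1; simp [ev_sR_ne h]

lemma rho_rho_self (i : ℕ) (f : A) : rho i (rho i f) = rho i f := by
  ext1; simp [ev_ev_self]

lemma rho_comm {i j : ℕ} (h : i ≠ j) (f : A) : rho i (rho j f) = rho j (rho i f) := by
  ext1; simp [ev_comm h]

lemma s_ne_zero (i : ℕ) : s i ≠ 0 := by
  intro h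
  exact sR_ne_zero i (congrArg Subtype.val h)

/-- If `s_i * g ∈ A` then `g` satisfies the conditions at all `j ≠ i`. -/
lemma cond_of_sR_mul {i j : ℕ} (h : j ≠ i) {g : R} (hg : sR i * g ∈ A) :
    ev j 0 g = ev j 1 g := by
  rw [mem_A] at hg
  have := hg j
  rw [map_mul, map_mul, ev_sR_ne (Ne.symm h), ev_sR_ne (Ne.symm h)] at this
  exact mul_left_cancel₀ (sR_ne_zero i) this

/-- The kernel of `ρ_i` is generated by `s_i` and `u_i`. -/
lemma exists_of_rho_eq_zero {i : ℕ} {f : A} (hf : rho i f = 0) :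
    ∃ g₁ g₂ : A, f = s i * g₁ + u i * g₂ := by
  have h0 : ev i 0 (f : R) = 0 := congrArg Subtype.val hf
  have h1 : ev i 1 (f : R) = 0 := by rw [← (mem_A.1 f.2) i, h0]
  obtain ⟨g, hg⟩ := sR_dvd h0 h1
  have hgA : sR i * g ∈ A := by rw [← hg]; exact f.2
  have hc : ∀ j, j ≠ i → ev j 0 g = ev j 1 g := fun j hj => cond_of_sR_mul hj hgA
  have e2 : ev i 1 g - ev i 0 g ∈ A := by
    rw [mem_A]
    intro j
    by_cases h : j = i
    · subst h
      simp [ev_ev_self]
    · rw [map_sub, map_sub, ev_comm h, ev_comm h, ev_comm h, ev_comm h, hc j h]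
  have e1 : g - X i * (ev i 1 g - ev i 0 g) ∈ A := by
    rw [mem_A]
    intro j
    by_cases h : j = i
    · subst h
      simp [ev_ev_self]
    · rw [map_sub, map_sub, map_mul, map_mul, (mem_A.1 e2) j, hc j h, ev_X_ne (Ne.symm h),
        ev_X_ne (Ne.symm h)]
  refine ⟨⟨_, e1⟩, ⟨_, e2⟩, ?_⟩
  ext1
  simp only [Subalgebra.coe_add, Subalgebra.coe_mul, coe_s, coe_u]
  rw [hg]
  ring

lemma rho_eq_zero_iff {i : ℕ} {f : A} :
    rho i f = 0 ↔ f ∈ Ideal.span ({s i, u i} : Set A) := by
  rw [Ideal.mem_span_pair]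
  constructor
  · intro h
    obtain ⟨g₁, g₂, h⟩ := exists_of_rho_eq_zero h
    exact ⟨g₁, g₂, by rw [h]; ring⟩
  · rintro ⟨g₁, g₂, rfl⟩
    simp [rho_s_self, rho_u_self]

/-- The multiplicative set of all elements of `A` not vanishing at any node. -/
def S : Submonoid A where
  carrier := {f | ∀ i, rho i f ≠ 0}
  one_mem' := by intro i; simp
  mul_mem' := by
    intro a b ha hb i
    rw [map_mul]
    exact mul_ne_zero (ha i) (hb i)

lemma mem_S {f : A} : f ∈ S ↔ ∀ i, rho i f ≠ 0 := Iff.rfl

lemma S_le : S ≤ nonZeroDivisors A := by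
  intro f hf
  apply mem_nonZeroDivisors_of_ne_zero
  rintro rfl
  exact hf 0 (map_zero _)

/-- If `c = ρ_i f ≠ 0` then `c + s_i ∈ S`. -/
lemma rho_add_s_mem {i : ℕ} {f : A} (hf : rho i f ≠ 0) : rho i f + s i ∈ S := by
  intro j h0
  by_cases h : j = i
  · subst h
    rw [map_add, rho_rho_self, rho_s_self, add_zero] at h0
    exact hf h0
  · rw [map_add, rho_s_ne (Ne.symm h)] at h0
    have h1 := congrArg (rho i) h0
    rw [map_add, rho_s_self, add_zero, map_zero, rho_comm (Ne.symm h), rho_rho_self] at h1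
    rw [h1, zero_add] at h0
    exact s_ne_zero i h0

/-- The one-dimensional noetherian domain with infinitely many nodes. -/
def k : Type := Localization S

noncomputable instance : CommRing k := inferInstanceAs (CommRing (Localization S))
noncomputable instance : Algebra A k := inferInstanceAs (Algebra A (Localization S))
instance : IsLocalization S k := inferInstanceAs (IsLocalization S (Localization S))

instance : IsDomain k := IsLocalization.isDomain_of_le_nonZeroDivisors k S_le

lemma algebraMap_injective : Function.Injective (algebraMap A k) :=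
  IsLocalization.injective k S_le

/-- `A` as an algebra over the polynomial ring through `t_i ↦ s_i`. -/
noncomputable def phiA : R →+* A := (phi.codRestrict A phi_mem).toRingHom

lemma coe_phiA (p : R) : ((phiA p : A) : R) = phi p := rfl

lemma phiA_injective : Function.Injective phiA := by
  intro p q h
  exact phi_injective (congrArg Subtype.val h)

lemma phiA_X (i : ℕ) : phiA (X i) = s i := by
  ext1; simp [coe_phiA, phi_X]

lemma rho_phiA (i : ℕ) (p : R) : rho i (phiA p) = phiA (ev i 0 p) := by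
  ext1; simp [coe_phiA, ev_phi]

lemma isIntegral_R (f : R) : phi.toRingHom.IsIntegralElem f := by
  induction f using MvPolynomial.induction_on with
  | C c =>
    have := phi.toRingHom.isIntegralElem_map (x := C c)
    simpa [phi] using this
  | add p q hp hq => exact RingHom.IsIntegralElem.add _ hp hq
  | mul_X p j hp =>
    refine RingHom.IsIntegralElem.mul _ hp ?_
    refine ⟨Polynomial.X ^ 2 - Polynomial.X - Polynomial.C (X j), ?_, ?_⟩
    · monicity!
    · simp [Polynomial.eval₂_sub, phi_X, sR]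
      ring

lemma isIntegral_A (f : A) : phiA.IsIntegralElem f := by
  obtain ⟨p, hp, hp0⟩ := isIntegral_R (f : R)
  refine ⟨p, hp, ?_⟩
  apply Subtype.val_injective
  have : ((Polynomial.eval₂ phiA f p : A) : R) = Polynomial.eval₂ phi.toRingHom (f : R) p := by
    have := Polynomial.hom_eval₂ p phiA A.val.toRingHom f
    exact this
  rw [this, hp0]
  rfl

/-- Every nonzero prime ideal of `A` disjoint from `S` contains some `s_i`. -/
lemma exists_s_mem {P : Ideal A} (hP : P.IsPrime) (hP0 : P ≠ ⊥)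
    (hPS : Disjoint (S : Set A) (P : Set A)) : ∃ i, s i ∈ P := by
  let _ : Algebra R A := phiA.toAlgebra
  obtain ⟨x, hx, hx0⟩ := Submodule.exists_mem_ne_zero_of_ne_bot hP0
  have h1 : Ideal.comap (algebraMap R A) P ≠ ⊥ :=
    Ideal.comap_ne_bot_of_integral_mem hx0 hx (isIntegral_A x)
  obtain ⟨π, hπ, hπp⟩ := Ideal.IsPrime.exists_mem_prime_of_ne_bot
    (Ideal.IsPrime.comap (K := P) (algebraMap R A)) h1
  have hπP : phiA π ∈ P := hπ
  have hnS : phiA π ∉ S := fun h => Set.disjoint_left.1 hPS h hπP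
  rw [mem_S] at hnS
  push Not at hnS
  obtain ⟨i, hi⟩ := hnS
  rw [rho_phiA] at hi
  have h2 : ev i 0 π = 0 := phiA_injective (by rw [hi, map_zero])
  have h3 : (X i : R) ∣ π := by
    have := X_sub_C_dvd i 0 π
    rwa [h2, sub_zero, C_0, sub_zero] at this
  have h4 : Associated (X i : R) π := by
    have hX : Irreducible (X i : R) := (MvPolynomial.X_prime (i := i)).irreducible
    exact hX.associated_of_dvd hπp.irreducible h3
  obtain ⟨v, hv⟩ := h4.symm
  refine ⟨i, ?_⟩
  rw [← phiA_X, ← hv, map_mul]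
  exact P.mul_mem_right _ hπP

lemma u_sq (i : ℕ) : u i ^ 2 = s i * u i + s i ^ 3 := by
  ext1
  simp only [Subalgebra.coe_pow, Subalgebra.coe_add, Subalgebra.coe_mul, coe_s, coe_u, sR]
  ring

lemma u_mem_of_s_mem {P : Ideal A} (hP : P.IsPrime) {i : ℕ} (h : s i ∈ P) : u i ∈ P := by
  apply hP.mem_of_pow_mem 2
  rw [u_sq]
  exact P.add_mem (P.mul_mem_right _ h) (Ideal.pow_mem_of_mem _ h 3 (by norm_num))

/-- The fraction field of the polynomial ring. -/
def K : Type := FractionRing R

noncomputable instance : Field K := inferInstanceAs (Field (FractionRing R))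
noncomputable instance : Algebra R K := inferInstanceAs (Algebra R (FractionRing R))
instance : IsFractionRing R K := inferInstanceAs (IsFractionRing R (FractionRing R))

/-- The residue map at the node `i`, into `K`. -/
noncomputable def res (i : ℕ) : k →+* K :=
  IsLocalization.lift (M := S) (S := k)
    (g := (algebraMap R K).comp (A.val.toRingHom.comp (rho i).toRingHom)) (by
      rintro ⟨y, hy⟩
      rw [isUnit_iff_ne_zero]
      intro h
      have h1 : ((rho i y : A) : R) = 0 :=
        (IsFractionRing.injective R K) (by simpa using h)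
      exact hy i (Subtype.val_injective h1))

lemma res_algebraMap (i : ℕ) (f : A) :
    res i (algebraMap A k f) = algebraMap R K (ev i 0 (f : R)) := by
  simp [res, IsLocalization.lift_eq]

/-- The maximal ideal of the node `i`. -/
noncomputable def mm (i : ℕ) : Ideal k := Ideal.span {algebraMap A k (s i), algebraMap A k (u i)}

lemma res_eq_zero_of_mem {i : ℕ} {z : k} (hz : z ∈ mm i) : res i z = 0 := by
  rw [mm, Ideal.mem_span_pair] at hz
  obtain ⟨a, b, rfl⟩ := hz
  rw [map_add, map_mul, map_mul, res_algebraMap, res_algebraMap]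
  simp [ev_sR_zero]

lemma mm_ne_top (i : ℕ) : mm i ≠ ⊤ := by
  intro h
  have : (1 : k) ∈ mm i := by rw [h]; trivial
  have := res_eq_zero_of_mem this
  rw [map_one] at this
  exact one_ne_zero this

lemma algebraMap_mem_mm {i : ℕ} {f : A} (hf : rho i f = 0) : algebraMap A k f ∈ mm i := by
  obtain ⟨g₁, g₂, rfl⟩ := exists_of_rho_eq_zero hf
  rw [mm, Ideal.mem_span_pair]
  refine ⟨algebraMap A k g₁, algebraMap A k g₂, ?_⟩
  rw [map_add, map_mul, map_mul]
  ring

/-- An element not in `mm i` is congruent to a unit modulo `mm i`. -/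
lemma exists_mul_sub_one_mem {i : ℕ} {z : k} (hz : z ∉ mm i) : ∃ w : k, z * w - 1 ∈ mm i := by
  obtain ⟨a, σ, rfl⟩ := IsLocalization.exists_mk'_eq S z
  have ha : rho i a ≠ 0 := by
    intro h
    apply hz
    have := algebraMap_mem_mm h
    rw [IsLocalization.mk'_eq_mul_mk'_one]
    exact Ideal.mul_mem_right _ _ this
  have hc : rho i a + s i ∈ S := rho_add_s_mem ha
  obtain ⟨v, hv⟩ := (IsLocalization.map_units k (⟨_, hc⟩ : S)).exists_right_inv
  refine ⟨algebraMap A k σ * v, ?_⟩
  have h1 : IsLocalization.mk' k a σ * (algebraMap A k σ * v) = algebraMap A k a * v := by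
    rw [← mul_assoc, IsLocalization.mk'_spec]
  rw [h1, ← hv, ← sub_mul, ← map_sub]
  apply Ideal.mul_mem_right
  apply algebraMap_mem_mm
  rw [map_sub, map_add, rho_rho_self, rho_s_self]
  simp

lemma mm_isMaximal (i : ℕ) : (mm i).IsMaximal := by
  rw [Ideal.isMaximal_iff]
  constructor
  · intro h
    exact mm_ne_top i ((Ideal.eq_top_iff_one _).2 h)
  · intro J x hJ hx hxJ
    obtain ⟨w, hw⟩ := exists_mul_sub_one_mem hx
    have h1 : x * w ∈ J := J.mul_mem_right _ hxJ
    have hw : x * w - 1 ∈ J := hJ hw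
    have h2 := J.sub_mem h1 hw
    rwa [sub_sub_cancel] at h2

/-- The only nonzero primes of `k` are the maximal ideals `mm i`. -/
lemma eq_mm_of_prime {P : Ideal k} (hP : P.IsPrime) (hP0 : P ≠ ⊥) : ∃ i, P = mm i := by
  have hPA : (P.comap (algebraMap A k)).IsPrime ∧ Disjoint (S : Set A) (P.comap (algebraMap A k) : Set A) :=
    (IsLocalization.isPrime_iff_isPrime_disjoint S k P).1 hP
  have h0 : P.comap (algebraMap A k) ≠ ⊥ := by
    obtain ⟨z, hz, hz0⟩ := Submodule.exists_mem_ne_zero_of_ne_bot hP0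
    obtain ⟨a, σ, rfl⟩ := IsLocalization.exists_mk'_eq S z
    intro h
    have h1 : a ∈ P.comap (algebraMap A k) := by
      rw [Ideal.mem_comap, ← IsLocalization.mk'_spec k a σ]
      exact P.mul_mem_right _ hz
    rw [h, Ideal.mem_bot] at h1
    subst h1
    exact hz0 (by simp)
  obtain ⟨i, hi⟩ := exists_s_mem hPA.1 h0 hPA.2
  have hu := u_mem_of_s_mem hPA.1 hi
  refine ⟨i, ?_⟩
  have hle : mm i ≤ P := by
    rw [mm, Ideal.span_le]
    rintro x (rfl | rfl)
    · exact hi
    · exact hu
  exact ((mm_isMaximal i).eq_of_le hP.ne_top hle).symm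

instance : IsNoetherianRing k := by
  apply IsNoetherianRing.of_prime
  intro P hP
  by_cases h : P = ⊥
  · rw [h]; exact Submodule.fg_bot
  · obtain ⟨i, rfl⟩ := eq_mm_of_prime hP h
    classical
    refine ⟨{algebraMap A k (s i), algebraMap A k (u i)}, ?_⟩
    rw [Finset.coe_insert, Finset.coe_singleton]
    rfl

end Pool.Agent.Helper32.NodeRing
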