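import Mathlib
import Pool.Agent.Helper32.NodeRing

open MvPolynomial

namespace Pool.Agent.Helper32.NodeRing

/-- The derivative of `ev i 0 f` in direction `i` vanishes. -/
lemma pderiv_ev (i : ℕ) (a : ℂ) (f : R) : pderiv i (ev i a f) = 0 := by
  induction f using MvPolynomial.induction_on with
  | C c => simp
  | add p q hp hq => rw [map_add, map_add, hp, hq, add_zero]
  | mul_X p j hp =>
    rw [map_mul, Derivation.leibniz, hp]
    by_cases h : j = i
    · subst h; simp
    · rw [ev_X_ne h, pderiv_X_of_ne h]; simp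

/-- Coordinates in `K`. -/
noncomputable def toK : R →+* K := algebraMap R K

lemma toK_injective : Function.Injective toK := IsFractionRing.injective R K

/-- The tangent map. -/
noncomputable def DD (i : ℕ) (f : R) : K :=
  toK (ev i 0 (pderiv i f)) + toK (X i) * toK (ev i 1 (pderiv i f))

abbrev D2 := TrivSqZeroExt K K

/-- First-order expansion at the node `i`. -/
noncomputable def Psi (i : ℕ) : A →+* D2 where
  toFun f := TrivSqZeroExt.inl (toK (ev i 0 (f : R))) + TrivSqZeroExt.inr (DD i (f : R))
  map_one' := by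
    ext <;> simp [DD]
  map_zero' := by
    ext <;> simp [DD]
  map_add' f g := by
    ext
    · simp
    · simp [DD]; ring
  map_mul' f g := by
    ext
    · simp
    · have hf := (mem_A.1 f.2) i
      have hg := (mem_A.1 g.2) i
      simp only [DD, Subalgebra.coe_mul, Derivation.leibniz, map_add, map_mul,
        TrivSqZeroExt.snd_add, TrivSqZeroExt.snd_inl, TrivSqZeroExt.snd_inr, zero_add,
        TrivSqZeroExt.snd_mul, TrivSqZeroExt.fst_add, TrivSqZeroExt.fst_inl,
        TrivSqZeroExt.fst_inr, add_zero, smul_eq_mul, ← hf, ← hg, MulOpposite.smul_eq_mul_unop,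
        MulOpposite.unop_op]
      ring

lemma fst_Psi (i : ℕ) (f : A) : (Psi i f).fst = toK (ev i 0 (f : R)) := by
  simp [Psi]

lemma snd_Psi (i : ℕ) (f : A) : (Psi i f).snd = DD i (f : R) := by
  simp [Psi]

/-- First-order expansion at the node `i`, on `k`. -/
noncomputable def PsiK (i : ℕ) : k →+* D2 :=
  IsLocalization.lift (M := S) (S := k) (g := Psi i) (by
    rintro ⟨y, hy⟩
    rw [TrivSqZeroExt.isUnit_iff_isUnit_fst, fst_Psi, isUnit_iff_ne_zero]
    intro h
    have h1 : ((rho i y : A) : R) = 0 := toK_injective (by simpa using h)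
    exact hy i (Subtype.val_injective h1))

lemma PsiK_algebraMap (i : ℕ) (f : A) : PsiK i (algebraMap A k f) = Psi i f := by
  simp [PsiK, IsLocalization.lift_eq]

/-- The band module at node `i`. -/
def Band (_i : ℕ) : Type := D2

noncomputable instance (i : ℕ) : AddCommGroup (Band i) := inferInstanceAs (AddCommGroup D2)
noncomputable instance (i : ℕ) : Module D2 (Band i) := inferInstanceAs (Module D2 D2)
noncomputable instance (i : ℕ) : Module k (Band i) := Module.compHom (Band i) (PsiK i)

lemma smul_def (i : ℕ) (z : k) (v : Band i) : z • v = PsiK i z • v := rfl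

lemma pderiv_sR (i : ℕ) : pderiv i (sR i) = 2 * X i - 1 := by
  simp only [sR, Derivation.leibniz, map_sub, pderiv_X_self, Derivation.map_one_eq_zero,
    smul_eq_mul]
  ring

lemma pderiv_uR (i : ℕ) : pderiv i (X i * sR i) = 3 * X i ^ 2 - 2 * X i := by
  rw [Derivation.leibniz, pderiv_sR, pderiv_X_self, sR]
  simp only [smul_eq_mul]
  ring

lemma Psi_s (i : ℕ) : Psi i (s i) = TrivSqZeroExt.inr (toK (X i) - 1) := by
  ext
  · simp [fst_Psi, ev_sR_zero]
  · rw [snd_Psi, coe_s, DD, pderiv_sR]
    simp only [map_sub, map_mul, ev_X_self, map_one, C_0, mul_zero, map_ofNat,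
      TrivSqZeroExt.snd_inr]
    simp
    ring

lemma Psi_u (i : ℕ) : Psi i (u i) = TrivSqZeroExt.inr (toK (X i)) := by
  ext
  · simp [fst_Psi, ev_sR_zero]
  · rw [snd_Psi, coe_u, DD, pderiv_uR]
    simp only [map_sub, map_mul, map_pow, ev_X_self, map_one, C_0, mul_zero, map_ofNat,
      TrivSqZeroExt.snd_inr]
    simp
    ring

lemma Psi_eps (i : ℕ) : Psi i (u i - s i) = TrivSqZeroExt.inr 1 := by
  rw [map_sub, Psi_s, Psi_u, ← TrivSqZeroExt.inr_sub]
  congr 1
  ring

lemma Psi_rho (i : ℕ) (f : A) : Psi i (rho i f) = TrivSqZeroExt.inl (toK (ev i 0 (f : R))) := by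
  ext
  · simp [fst_Psi, ev_ev_self]
  · rw [snd_Psi]
    simp [DD, pderiv_ev]

/-- Every `k`-endomorphism of the band module induces a scalar on the top and on the socle. -/
lemma end_formula_aux (i : ℕ) (φ : D2 →+ D2)
    (hA : ∀ (f : A) (v : D2), φ (Psi i f * v) = Psi i f * φ v) :
    ∃ c : K, (∀ a : K, φ (TrivSqZeroExt.inr a) = TrivSqZeroExt.inr (c * a)) ∧
      ∀ v : D2, TrivSqZeroExt.fst (φ v) = c * TrivSqZeroExt.fst v := by
  let α : K → K := fun a => TrivSqZeroExt.fst (φ (TrivSqZeroExt.inl a))
  have hinr : ∀ a : K, φ (TrivSqZeroExt.inr a) = TrivSqZeroExt.inr (α a) := by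
    intro a
    have := hA (u i - s i) (TrivSqZeroExt.inl a)
    rw [Psi_eps] at this
    have h1 : (TrivSqZeroExt.inr 1 * TrivSqZeroExt.inl a : D2) = TrivSqZeroExt.inr a := by
      ext <;> simp
    rw [h1] at this
    rw [this]
    ext <;> simp [α]
  have hadd : ∀ a b : K, α (a + b) = α a + α b := by
    intro a b
    simp only [α]
    rw [TrivSqZeroExt.inl_add, map_add, TrivSqZeroExt.fst_add]
  have hXi : ∀ a : K, α (toK (X i) * a) = toK (X i) * α a := by
    intro a
    have := hA (u i) (TrivSqZeroExt.inl a)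
    rw [Psi_u] at this
    have h1 : (TrivSqZeroExt.inr (toK (X i)) * TrivSqZeroExt.inl a : D2)
        = TrivSqZeroExt.inr (toK (X i) * a) := by
      ext
      · simp
      · simp [mul_comm]
    rw [h1, hinr] at this
    have h2 := congrArg TrivSqZeroExt.snd this
    simpa [α, mul_comm] using h2
  have hrho : ∀ (f : A) (a : K), α (toK (ev i 0 (f : R)) * a) = toK (ev i 0 (f : R)) * α a := by
    intro f a
    have := hA (rho i f) (TrivSqZeroExt.inl a)
    rw [Psi_rho] at this
    have h1 : (TrivSqZeroExt.inl (toK (ev i 0 (f : R))) * TrivSqZeroExt.inl a : D2)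
        = TrivSqZeroExt.inl (toK (ev i 0 (f : R)) * a) := by
      ext <;> simp
    rw [h1] at this
    have h2 := congrArg TrivSqZeroExt.fst this
    simpa [α] using h2
  have hXj : ∀ (j : ℕ) (a : K), α (toK (X j) * a) = toK (X j) * α a := by
    intro j a
    by_cases h : j = i
    · subst h; exact hXi a
    · have h1 := hrho (s j) (toK (X j) * a)
      have h2 := hrho (u j) a
      simp only [coe_s, coe_u, map_mul, ev_sR_ne h, ev_X_ne h] at h1 h2
      have h3 : toK (sR j) * (toK (X j) * a) = toK (X j) * toK (sR j) * a := by ring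
      rw [h3, h2] at h1
      have h4 : toK (sR j) ≠ 0 := by
        intro h0
        exact sR_ne_zero j (toK_injective (by rw [h0, map_zero]))
      apply mul_left_cancel₀ h4
      rw [← h1]; ring
  have hC : ∀ (c : ℂ) (a : K), α (toK (C c) * a) = toK (C c) * α a := by
    intro c a
    have := hrho (algebraMap ℂ A c) a
    simpa using this
  have hf : ∀ (f : R) (a : K), α (toK f * a) = toK f * α a := by
    intro f
    induction f using MvPolynomial.induction_on with
    | C c => exact hC c
    | add p q hp hq =>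
      intro a
      rw [map_add, add_mul, hadd, hp, hq, add_mul]
    | mul_X p j hp =>
      intro a
      rw [map_mul, mul_assoc, hp, hXj, mul_assoc]
  have hall : ∀ a : K, α a = α 1 * a := by
    intro a
    obtain ⟨p, q, hq, rfl⟩ := IsFractionRing.div_surjective (A := R) a
    have hq0 : toK q ≠ 0 := by
      intro h0
      exact nonZeroDivisors.ne_zero hq (toK_injective (by rw [h0, map_zero]))
    have h1 := hf q (toK p / toK q)
    have h2 := hf p 1
    rw [mul_div_cancel₀ _ hq0] at h1
    rw [mul_one] at h2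
    rw [h2] at h1
    change α (toK p / toK q) = α 1 * (toK p / toK q)
    rw [mul_div_assoc', eq_div_iff hq0, mul_comm, ← h1, mul_comm]
  refine ⟨α 1, ?_, ?_⟩
  · intro a
    rw [hinr, hall]
  · intro v
    have h1 : v = TrivSqZeroExt.inl (TrivSqZeroExt.fst v)
        + TrivSqZeroExt.inr (TrivSqZeroExt.snd v) :=
      (TrivSqZeroExt.inl_fst_add_inr_snd_eq _).symm
    conv_lhs => rw [h1]
    rw [map_add, TrivSqZeroExt.fst_add, hinr, TrivSqZeroExt.fst_inr, add_zero]
    exact hall _

/-- The underlying additive map of an endomorphism of a band module. -/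
noncomputable def toAdd {i : ℕ} (φ : Band i →ₗ[k] Band i) : D2 →+ D2 := φ.toAddMonoidHom

lemma toAdd_apply {i : ℕ} (φ : Band i →ₗ[k] Band i) (v : Band i) : toAdd φ v = φ v := rfl

lemma end_formula (i : ℕ) (φ : Band i →ₗ[k] Band i) :
    ∃ c : K, (∀ a : K, toAdd φ (TrivSqZeroExt.inr a) = TrivSqZeroExt.inr (c * a)) ∧
      ∀ v : D2, TrivSqZeroExt.fst (toAdd φ v) = c * TrivSqZeroExt.fst v := by
  apply end_formula_aux i (toAdd φ)
  intro f v
  have h : PsiK i (algebraMap A k f) = Psi i f := PsiK_algebraMap i f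
  rw [← h]
  exact φ.map_smul (algebraMap A k f) v

lemma toAdd_injective {i : ℕ} {φ : Band i →ₗ[k] Band i} (h : ∀ v : D2, toAdd φ v = 0) :
    φ = 0 := LinearMap.ext h

/-- The band modules are indecomposable. -/
theorem band_indec (i : ℕ) (p q : Submodule k (Band i)) (h : IsCompl p q) :
    p = ⊥ ∨ q = ⊥ := by
  obtain ⟨c, hc1, hc2⟩ := end_formula i (p.projection q h)
  have hidem : ∀ v : D2, toAdd (p.projection q h) (toAdd (p.projection q h) v)
      = toAdd (p.projection q h) v := by
    intro v
    exact Submodule.projection_apply_left h ⟨_, Submodule.projection_apply_mem h v⟩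
  have hcc : c * c = c := by
    have := hidem (TrivSqZeroExt.inr 1)
    rw [hc1, hc1, mul_one] at this
    exact TrivSqZeroExt.inr_injective this
  have hc01 : c = 0 ∨ c = 1 := by
    have : c * (c - 1) = 0 := by rw [mul_sub, hcc]; ring
    rcases mul_eq_zero.1 this with h | h
    · exact Or.inl h
    · exact Or.inr (sub_eq_zero.1 h)
  have hfst : ∀ v : D2, TrivSqZeroExt.fst v = 0 → v = TrivSqZeroExt.inr (TrivSqZeroExt.snd v) := by
    intro v hv
    ext <;> simp [hv]
  rcases hc01 with rfl | rfl
  · left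
    have h0 : ∀ v : D2, toAdd (p.projection q h) v = 0 := by
      intro v
      have h1 : TrivSqZeroExt.fst (toAdd (p.projection q h) v) = 0 := by rw [hc2, zero_mul]
      rw [← hidem v, hfst _ h1, hc1, zero_mul, TrivSqZeroExt.inr_zero]
    rw [Submodule.eq_bot_iff]
    intro x hx
    have h2 := Submodule.projection_apply_of_mem_left h hx
    rw [← h2]
    exact h0 x
  · right
    rw [Submodule.eq_bot_iff]
    intro x hx
    have h2 : toAdd (p.projection q h) x = 0 := Submodule.projection_apply_of_mem_right h hx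
    have h1 : TrivSqZeroExt.fst (x : D2) = 0 := by
      have := hc2 x
      rw [h2, one_mul] at this
      rw [← this]; rfl
    have h3 := hc1 (TrivSqZeroExt.snd (x : D2))
    have h4 : toAdd (p.projection q h) x = toAdd (p.projection q h)
        (TrivSqZeroExt.inr (TrivSqZeroExt.snd (x : D2))) := congrArg _ (hfst x h1)
    rw [← h4, h2, one_mul] at h3
    rw [show x = (TrivSqZeroExt.inr (TrivSqZeroExt.snd (x : D2)) : D2) from hfst x h1, ← h3]
    rfl

/-- The top of the band module as a `k`-algebra. -/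
def TopK (_i : ℕ) : Type := K

noncomputable instance (i : ℕ) : Field (TopK i) := inferInstanceAs (Field K)
noncomputable instance (i : ℕ) : Algebra k (TopK i) := (res i).toAlgebra

lemma algebraMap_TopK (i : ℕ) (z : k) : algebraMap k (TopK i) z = res i z := rfl

lemma fst_PsiK (i : ℕ) (z : k) : TrivSqZeroExt.fst (PsiK i z) = res i z := by
  have : (TrivSqZeroExt.fstHom ℤ K K).toRingHom.comp (PsiK i) = res i := by
    apply IsLocalization.ringHom_ext S
    ext f
    simp [PsiK_algebraMap, fst_Psi, res_algebraMap, toK]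
  exact DFunLike.congr_fun this z

/-- Projection of a band module to its top. -/
noncomputable def toTop (i : ℕ) : Band i →ₗ[k] TopK i where
  toFun v := TrivSqZeroExt.fst (v : D2)
  map_add' v w := TrivSqZeroExt.fst_add _ _
  map_smul' z v := by
    rw [RingHom.id_apply, Algebra.smul_def, algebraMap_TopK, ← fst_PsiK]
    exact TrivSqZeroExt.fst_mul (R := K) (M := K) _ _

lemma toTop_surjective (i : ℕ) : Function.Surjective (toTop i) := by
  intro a
  exact ⟨(TrivSqZeroExt.inl (a : K) : D2), TrivSqZeroExt.fst_inl K (a : K)⟩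

lemma topK_not_finite (i : ℕ) : ¬ Module.Finite k (TopK i) := by
  intro hfin
  let xi : TopK i := (toK (X i) : K)
  obtain ⟨P, hP, hP0⟩ := IsIntegral.of_finite k xi
  have hP0' : Polynomial.eval₂ (res i) (toK (X i)) P = 0 := hP0
  obtain ⟨b, hb, hbP⟩ := IsLocalization.integerNormalization_spec S P
  have h0 := IsLocalization.integerNormalization_eval₂_eq_zero S (res i) P hP0'
  set Q := IsLocalization.integerNormalization S P with hQ
  let g : A →+* R := ((ev i 0).comp A.val).toRingHom
  have hg : ((res i).comp (algebraMap A k)) = toK.comp g := by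
    ext f
    exact res_algebraMap i f
  rw [hg, ← Polynomial.hom_eval₂] at h0
  have h1 : Polynomial.eval₂ g (X i) Q = 0 := toK_injective (by rw [map_zero]; exact h0)
  have h2 : Polynomial.eval (X i) (Q.map g) = 0 := by rwa [Polynomial.eval_map]
  have h3 : Q.map g = 0 := by
    apply Polynomial.eq_zero_of_infinite_isRoot
    apply Set.infinite_of_injective_forall_mem (f := fun a : ℂ => (C a : R))
      (MvPolynomial.C_injective ℕ ℂ)
    intro a
    change Polynomial.eval (C a) (Q.map g) = 0
    have h4 : ev i a (Polynomial.eval (X i) (Q.map g)) = 0 := by rw [h2, map_zero]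
    rw [← h4, Polynomial.eval_map, Polynomial.eval_map]
    have h5 := Polynomial.hom_eval₂ Q g (ev i a).toRingHom (X i)
    have h6 : (ev i a).toRingHom.comp g = g := by
      ext f
      · exact congrArg _ (ev_ev_self i a 0 (f : R))
    rw [h6] at h5
    rw [show ev i a (Polynomial.eval₂ g (X i) Q) = (ev i a).toRingHom (Polynomial.eval₂ g (X i) Q)
      from rfl, h5]
    simp
  have h7 : Q.coeff P.natDegree = b := by
    apply algebraMap_injective
    rw [← Polynomial.coeff_map, hbP, Polynomial.coeff_smul, hP.coeff_natDegree, Algebra.smul_def,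
      mul_one]
  have h8 : g b = 0 := by
    rw [← h7, ← Polynomial.coeff_map, h3, Polynomial.coeff_zero]
  exact hb i (Subtype.val_injective h8)

theorem band_not_finite (i : ℕ) : ¬ Module.Finite k (Band i) := fun _ =>
  topK_not_finite i (Module.Finite.of_surjective (toTop i) (toTop_surjective i))

/-- The underlying dual number. -/
def bd {i : ℕ} (v : Band i) : D2 := v

/-- A dual number as an element of the band module. -/
def ofD (i : ℕ) (v : D2) : Band i := v

/-- The underlying element of `K`. -/
def tk {i : ℕ} (v : TopK i) : K := v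

lemma bd_ofD (i : ℕ) (v : D2) : bd (ofD i v) = v := rfl
lemma ofD_bd {i : ℕ} (v : Band i) : ofD i (bd v) = v := rfl
lemma bd_smul {i : ℕ} (z : k) (v : Band i) : bd (z • v) = PsiK i z * bd v := rfl
lemma bd_add {i : ℕ} (v w : Band i) : bd (v + w) = bd v + bd w := rfl
lemma bd_zero {i : ℕ} : bd (0 : Band i) = 0 := rfl
lemma bd_injective {i : ℕ} : Function.Injective (bd : Band i → D2) := fun _ _ h => h
lemma fst_bd {i : ℕ} (v : Band i) : TrivSqZeroExt.fst (bd v) = tk (toTop i v) := rfl

/-- Multiplication by a dual number, as a `k`-linear endomorphism. -/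
noncomputable def mulEnd (i : ℕ) (c : D2) : Module.End k (Band i) where
  toFun v := ofD i (c * bd v)
  map_add' v w := mul_add (c : D2) v w
  map_smul' z v := by
    apply bd_injective
    rw [RingHom.id_apply, bd_smul, bd_ofD, bd_smul, bd_ofD]
    ring

lemma bd_mulEnd (i : ℕ) (c : D2) (v : Band i) : bd (mulEnd i c • v) = c * bd v := rfl

/-- The socle of the band module, as a submodule over the endomorphism ring. -/
noncomputable def soc (i : ℕ) : Submodule (Module.End k (Band i)) (Band i) where
  carrier := {v | TrivSqZeroExt.fst (bd v) = 0}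
  add_mem' := by
    intro a b (ha : TrivSqZeroExt.fst (bd a) = 0) (hb : TrivSqZeroExt.fst (bd b) = 0)
    change TrivSqZeroExt.fst (bd (a + b)) = 0
    rw [bd_add, TrivSqZeroExt.fst_add, ha, hb, add_zero]
  zero_mem' := rfl
  smul_mem' := by
    intro φ v (hv : TrivSqZeroExt.fst (bd v) = 0)
    obtain ⟨c, -, hc⟩ := end_formula i φ
    have : TrivSqZeroExt.fst (bd (φ v)) = c * TrivSqZeroExt.fst (bd v) := hc (bd v)
    change TrivSqZeroExt.fst (bd (φ v)) = 0
    rw [this, hv, mul_zero]

lemma mem_soc {i : ℕ} {v : Band i} : v ∈ soc i ↔ TrivSqZeroExt.fst (bd v) = 0 := Iff.rfl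

lemma simple_soc (i : ℕ) : IsSimpleModule (Module.End k (Band i)) (soc i) := by
  rw [isSimpleModule_iff_toSpanSingleton_surjective]
  constructor
  · refine ⟨⟨⟨ofD i (TrivSqZeroExt.inr 1), rfl⟩, 0, ?_⟩⟩
    intro h
    have h1 : (TrivSqZeroExt.inr 1 : D2) = 0 := congrArg Subtype.val h
    have h2 := congrArg TrivSqZeroExt.snd h1
    rw [TrivSqZeroExt.snd_inr] at h2
    exact one_ne_zero h2
  · rintro ⟨v, hv⟩ hv0 ⟨w, hw⟩
    rw [mem_soc] at hv hw
    have hv2 : TrivSqZeroExt.snd (bd v) ≠ 0 := by
      intro h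
      apply hv0
      apply Subtype.ext
      exact TrivSqZeroExt.ext (R := K) (M := K) hv h
    refine ⟨mulEnd i (TrivSqZeroExt.inl (TrivSqZeroExt.snd (bd w) / TrivSqZeroExt.snd (bd v))), ?_⟩
    apply Subtype.ext
    apply bd_injective
    change (TrivSqZeroExt.inl (TrivSqZeroExt.snd (bd w) / TrivSqZeroExt.snd (bd v)) * bd v : D2)
      = bd w
    apply TrivSqZeroExt.ext
    · rw [TrivSqZeroExt.fst_mul, hv, hw, mul_zero]
    · rw [TrivSqZeroExt.snd_mul, hv, TrivSqZeroExt.fst_inl, TrivSqZeroExt.snd_inl]
      simp only [smul_eq_mul, MulOpposite.op_zero, zero_smul, add_zero]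
      exact div_mul_cancel₀ _ hv2

lemma simple_top (i : ℕ) :
    IsSimpleModule (Module.End k (Band i)) (Band i ⧸ soc i) := by
  rw [isSimpleModule_iff_toSpanSingleton_surjective]
  constructor
  · refine ⟨⟨(soc i).mkQ (ofD i (TrivSqZeroExt.inl 1)), 0, ?_⟩⟩
    intro h
    rw [Submodule.mkQ_apply, Submodule.Quotient.mk_eq_zero, mem_soc, bd_ofD,
      TrivSqZeroExt.fst_inl] at h
    exact one_ne_zero h
  · intro v hv0 w
    obtain ⟨v, rfl⟩ := (soc i).mkQ_surjective v
    obtain ⟨w, rfl⟩ := (soc i).mkQ_surjective w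
    have hv2 : TrivSqZeroExt.fst (bd v) ≠ 0 := by
      intro h
      apply hv0
      rw [Submodule.mkQ_apply, Submodule.Quotient.mk_eq_zero, mem_soc]
      exact h
    refine ⟨mulEnd i (TrivSqZeroExt.inl (TrivSqZeroExt.fst (bd w) / TrivSqZeroExt.fst (bd v))), ?_⟩
    rw [LinearMap.toSpanSingleton_apply, ← map_smul, Submodule.mkQ_apply, Submodule.mkQ_apply,
      Submodule.Quotient.eq, mem_soc, sub_eq_add_neg, bd_add, bd_mulEnd]
    have h4 : bd (-w) = - bd w := rfl
    rw [h4, TrivSqZeroExt.fst_add, TrivSqZeroExt.fst_mul, TrivSqZeroExt.fst_neg,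
      TrivSqZeroExt.fst_inl, div_mul_cancel₀ _ hv2, add_neg_cancel]

/-- The band modules have endolength two. -/
theorem band_length (i : ℕ) : Module.length (Module.End k (Band i)) (Band i) = 2 := by
  rw [Module.length_eq_add_of_exact (soc i).subtype (soc i).mkQ (Submodule.subtype_injective _)
    (Submodule.mkQ_surjective _) (LinearMap.exact_subtype_mkQ _),
    Module.length_eq_one_iff.2 (simple_soc i), Module.length_eq_one_iff.2 (simple_top i)]
  rfl

instance (i : ℕ) : Nontrivial (Band i) := inferInstanceAs (Nontrivial D2)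

/-- Band modules at distinct nodes are not isomorphic. -/
theorem band_not_iso {i j : ℕ} (h : i ≠ j) : ¬ Nonempty (Band i ≃ₗ[k] Band j) := by
  rintro ⟨e⟩
  let z : k := algebraMap A k (s i) ^ 2
  have hz : ∀ v : Band i, z • v = 0 := by
    intro v
    have h1 : PsiK i z = 0 := by
      rw [map_pow, PsiK_algebraMap, Psi_s, pow_two, TrivSqZeroExt.inr_mul_inr]
    rw [smul_def, h1, zero_smul]
  have hz' : ∀ v : Band j, z • v = 0 := by
    intro v
    rw [← e.apply_symm_apply v, ← map_smul, hz, map_zero]
  have h2 := congrArg bd (hz' (ofD j (TrivSqZeroExt.inl 1)))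
  rw [bd_smul, bd_ofD, bd_zero] at h2
  have h4 := congrArg TrivSqZeroExt.fst h2
  rw [TrivSqZeroExt.fst_mul, TrivSqZeroExt.fst_inl, mul_one, map_pow, PsiK_algebraMap,
    TrivSqZeroExt.fst_pow, fst_Psi, coe_s, ev_sR_ne h] at h4
  have h5 : toK (sR i) = 0 := by simpa using h4
  exact sR_ne_zero i (toK_injective (by rw [h5, map_zero]))

end Pool.Agent.Helper32.NodeRing
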