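import Pool.Agent.Helper75.KT.Stage
import Pool.Agent.Helper96.KTNear
import Pool.Agent.Helper77.KTProd

/-!
# Injectivity (F4 for `MP_0ce5f1_an`)

An equality of classes in `K_0` of the limit algebra descends to a finite stage; the map induced on
`K_0` by the inclusion of `C(XX)` is injective on the span of `1` and the class of the line bundle.
-/

set_option linter.unusedSectionVars false

namespace Pool.Agent.Helper75.KT

open Matrix Filter Topology CPd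
open scoped Kronecker ComplexOrder Matrix.Norms.L2Operator

section Emb

variable (𝒟 : AlgData) (i : ℕ)

/-- a matrix over `C(XX)`, in the finite stage -/
noncomputable def embD {ι κ : Type} (p : Matrix ι κ C(XX, ℂ)) : Matrix ι κ (𝒟.D i) := fun a b =>
  ⟨𝒟.emb (p a b), 𝒟.emb_mem _ i⟩

theorem embD_pr {ι : Type} [Fintype ι] {p : Matrix ι ι C(XX, ℂ)} (hp : IsPr p) :
    IsPr (embD 𝒟 i p) := by
  have h := hp.map 𝒟.emb
  refine ⟨?_, ?_⟩
  · ext1 a b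
    apply Subtype.ext
    have := congrFun (congrFun h.1 a) b
    rw [Matrix.mul_apply] at this
    rw [Matrix.mul_apply]
    rw [AddSubmonoidClass.coe_finsetSum]
    exact this
  · ext1 a b
    apply Subtype.ext
    exact congrFun (congrFun h.2 a) b

theorem kcl_PsiM_embD {ι : Type} [Fintype ι] [DecidableEq ι] {p : Matrix ι ι C(XX, ℂ)}
    (hp : IsPr p) (r : ℕ) (hr : ∀ x, (evM x p).trace = r) :
    kcl (PsiM 𝒟 i (embD 𝒟 i p))
      = kcl p + r * ∑ k ∈ (Finset.range (2 ^ i)).erase 0, ek k := by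
  classical
  let T : ∀ k : Fin (2 ^ i), Matrix ι ι C(XX, ℂ) := fun k =>
    if (k : ℕ) = 0 then p else cM XX (evM (𝒟.P k) p)
  have hT : ∀ k, IsPr (T k) := by
    intro k
    by_cases h : (k : ℕ) = 0
    · simp only [T, h, if_true]; exact hp
    · simp only [T, h, if_false]; exact cM_pr (hp.evM _)
  let e : (ι × KK i) ≃ Σ k : Fin (2 ^ i), ι × RR (Nat.size k) :=
    { toFun := fun a => ⟨a.2.1, a.1, a.2.2⟩
      invFun := fun b => (b.2.1, ⟨b.1, b.2.2⟩)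
      left_inv := fun a => rfl
      right_inv := fun b => rfl }
  have h : PsiM 𝒟 i (embD 𝒟 i p) = (Matrix.blockDiagonal' fun k : Fin (2 ^ i) =>
      T k ⊗ₖ ee (Nat.size k)).submatrix e e := by
    ext1 ⟨a, k, r⟩ ⟨b, l, s⟩
    rw [PsiM_apply, submatrix_apply]
    change 𝒟.Ψ i ⟨𝒟.emb (p a b), _⟩ ⟨k, r⟩ ⟨l, s⟩ = _
    rw [𝒟.Ψ_emb]
    by_cases hkl : k = l
    · subst hkl
      rw [Matrix.blockDiagonal'_apply_eq]
      change _ = Matrix.blockDiagonal' (fun k : Fin (2 ^ i) => T k ⊗ₖ ee (Nat.size k))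
        (⟨k, (a, r)⟩ : Σ k : Fin (2 ^ i), ι × RR (Nat.size k))
        (⟨k, (b, s)⟩ : Σ k : Fin (2 ^ i), ι × RR (Nat.size k))
      rw [Matrix.blockDiagonal'_apply_eq, kroneckerMap_apply]
      by_cases h0 : (k : ℕ) = 0
      · simp only [T, h0, if_true]
        rfl
      · simp only [T, h0, if_false]
        ext x
        rfl
    · rw [Matrix.blockDiagonal'_apply_ne _ _ _ hkl]
      change _ = Matrix.blockDiagonal' (fun k : Fin (2 ^ i) => T k ⊗ₖ ee (Nat.size k))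
        (⟨k, (a, r)⟩ : Σ k : Fin (2 ^ i), ι × RR (Nat.size k))
        (⟨l, (b, s)⟩ : Σ k : Fin (2 ^ i), ι × RR (Nat.size k))
      rw [Matrix.blockDiagonal'_apply_ne _ _ _ hkl]
  rw [h, kcl_submatrix (blockDiagonal'_pr _ (fun k => (hT k).kron (ee_pr _))),
    kcl_blockDiagonal' _ (fun k => (hT k).kron (ee_pr _))]
  have h2 : ∀ k : Fin (2 ^ i), kcl (T k ⊗ₖ ee (Nat.size k))
      = (fun m : ℕ => (if m = 0 then kcl p else (r : K0 C(XX, ℂ))) * ek m) k := by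
    intro k
    rw [kcl_kron (hT k) (ee_pr _)]
    by_cases h0 : (k : ℕ) = 0
    · simp only [T, h0, if_true, ek]
    · simp only [T, h0, if_false, ek]
      rw [kcl_cM_trace XX _ (hp.evM _) r (hr _)]
  rw [Finset.sum_congr rfl (fun k _ => h2 k), sum_split i (fun m : ℕ =>
    (if m = 0 then kcl p else (r : K0 C(XX, ℂ))) * ek m), Finset.mul_sum]
  congr 1
  · simp [ek_zero]
  · apply Finset.sum_congr rfl
    intro k hk
    rw [if_neg (Finset.ne_of_mem_erase hk)]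

/-- a partial isometry over the limit algebra is approximated at a finite stage -/
theorem exists_stage' {α β : Type} [Fintype α] [Fintype β] [DecidableEq α] [DecidableEq β]
    (v : Matrix α β 𝒟.A) {P : Matrix α α 𝒟.A} {Q : Matrix β β 𝒟.A}
    (hv1 : v * vᴴ = P) (hv2 : vᴴ * v = Q)
    (P' : ∀ i, Matrix α α (𝒟.D i)) (Q' : ∀ i, Matrix β β (𝒟.D i))
    (hP' : ∀ i, (P' i).map (𝒟.D i).subtype = P) (hQ' : ∀ i, (Q' i).map (𝒟.D i).subtype = Q)
    {η : ℝ} (hη : 0 < η) :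
    ∃ (i : ℕ) (w : Matrix α β (𝒟.D i)),
      (∀ x, ‖evM x (PsiM 𝒟 i (w * wᴴ - P' i))‖ ≤ η) ∧
      (∀ x, ‖evM x (PsiM 𝒟 i (wᴴ * w - Q' i))‖ ≤ η) := by
  have happ : ∀ m : ℕ, ∃ (i : ℕ) (f' : α × β → 𝒟.D i) (g' : Fin 0 → 𝒟.D i),
      (∀ s, ‖v s.1 s.2 - f' s‖ < 1 / ((m : ℝ) + 1)) ∧
      (∀ t, ‖(Fin.elim0 t : 𝒟.A) - g' t‖ < 1 / ((m : ℝ) + 1)) ∧ ∀ t, star (g' t) = g' t := fun m =>
    approx_stage 𝒟 (fun s : α × β => v s.1 s.2) (fun t : Fin 0 => (Fin.elim0 t : 𝒟.A))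
      (fun t => t.elim0) (by positivity)
  choose I f' g' h1 h2 h3 using happ
  let wA : ℕ → Matrix α β 𝒟.A := fun m a b => (f' m (a, b) : 𝒟.A)
  have hlim : Tendsto (fun m : ℕ => 1 / ((m : ℝ) + 1)) atTop (𝓝 0) :=
    tendsto_one_div_add_atTop_nhds_zero_nat
  have hw : Tendsto wA atTop (𝓝 v) := by
    refine tendsto_pi_nhds.2 fun a => tendsto_pi_nhds.2 fun b => ?_
    rw [tendsto_iff_norm_sub_tendsto_zero]
    refine squeeze_zero (fun _ => norm_nonneg _) (fun m => ?_) hlim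
    rw [norm_sub_rev]
    exact (h1 m (a, b)).le
  have hstar : Continuous (fun w : Matrix α β 𝒟.A => wᴴ) := by fun_prop
  have hws : Tendsto (fun m => (wA m)ᴴ) atTop (𝓝 vᴴ) := (hstar.tendsto v).comp hw
  have hm1 : Continuous (fun p : Matrix α β 𝒟.A × Matrix β α 𝒟.A => p.1 * p.2) := by fun_prop
  have hm2 : Continuous (fun p : Matrix β α 𝒟.A × Matrix α β 𝒟.A => p.1 * p.2) := by fun_prop
  have t1 : Tendsto (fun m => wA m * (wA m)ᴴ - P) atTop (𝓝 0) := by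
    have := ((hm1.tendsto (v, vᴴ)).comp (hw.prodMk_nhds hws)).sub_const P
    rw [hv1, sub_self] at this
    exact this
  have t2 : Tendsto (fun m => (wA m)ᴴ * wA m - Q) atTop (𝓝 0) := by
    have := ((hm2.tendsto (vᴴ, v)).comp (hws.prodMk_nhds hw)).sub_const Q
    rw [hv2, sub_self] at this
    exact this
  -- sums of norms of entries tend to zero
  have key : ∀ {σ τ : Type} [Fintype σ] [Fintype τ] (M : ℕ → Matrix σ τ 𝒟.A),
      Tendsto M atTop (𝓝 0) → ∀ᶠ m in atTop, ∑ a, ∑ b, ‖M m a b‖ < η := by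
    intro σ τ _ _ M hM
    have hc : Continuous (fun M : Matrix σ τ 𝒟.A => ∑ a, ∑ b, ‖M a b‖) := by
      refine continuous_finsetSum _ fun a _ => continuous_finsetSum _ fun b _ => ?_
      exact (continuous_id.matrix_elem a b).norm
    have h5 : Tendsto (fun m => ∑ a, ∑ b, ‖M m a b‖) atTop (𝓝 0) := by
      have h7 := (hc.tendsto 0).comp hM
      have h8 : ∑ a, ∑ b, ‖(0 : Matrix σ τ 𝒟.A) a b‖ = 0 := by simp
      rw [h8] at h7
      exact h7
    exact (tendsto_order.1 h5).2 η hη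
  obtain ⟨m, hm1', hm2'⟩ := ((key _ t1).and (key _ t2)).exists
  set wD : Matrix α β (𝒟.D (I m)) := Matrix.of fun a b => f' m (a, b) with hwD
  have hwA : wD.map (𝒟.D (I m)).subtype = wA m := rfl
  have hcoe : ∀ {σ τ : Type} (M : Matrix σ τ (𝒟.D (I m))) (a : σ) (b : τ),
      ((M a b : 𝒟.D (I m)) : 𝒟.A) = (M.map (𝒟.D (I m)).subtype) a b := fun M a b => rfl
  refine ⟨I m, wD, ?_, ?_⟩
  · intro x
    refine (norm_PsiM_le 𝒟 _ _ x).trans (le_of_lt ?_)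
    refine lt_of_eq_of_lt (Finset.sum_congr rfl fun a _ => Finset.sum_congr rfl fun b _ => ?_) hm1'
    rw [hcoe, sub_map', mul_map, ← conjT_map, hwA, hP']
  · intro x
    refine (norm_PsiM_le 𝒟 _ _ x).trans (le_of_lt ?_)
    refine lt_of_eq_of_lt (Finset.sum_congr rfl fun a _ => Finset.sum_congr rfl fun b _ => ?_) hm2'
    rw [hcoe, sub_map', mul_map, ← conjT_map, hwA, hQ']

end Emb

/-- for every stage large enough; any `i` suffices -/
theorem emb_descend (𝒟 : AlgData) {ι κ : Type} [Fintype ι] [DecidableEq ι] [Fintype κ] [DecidableEq κ]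
    {p : Matrix ι ι C(XX, ℂ)} {q : Matrix κ κ C(XX, ℂ)} (hp : IsPr p) (hq : IsPr q) (r s : ℕ)
    (hpr : ∀ x, (evM x p).trace = r) (hqr : ∀ x, (evM x q).trace = s)
    (h : K0.map 𝒟.emb (kcl p) = K0.map 𝒟.emb (kcl q)) :
    ∃ i : ℕ, kcl p + r * ∑ k ∈ (Finset.range (2 ^ i)).erase 0, ek k
      = kcl q + s * ∑ k ∈ (Finset.range (2 ^ i)).erase 0, ek k := by
  rw [K0.map_kcl _ hp, K0.map_kcl _ hq, kcl_eq_iff (hp.map _) (hq.map _)] at h
  obtain ⟨n, v, hv1, hv2, -⟩ := h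
  let P' : ∀ i, Matrix (ι ⊕ Fin n) (ι ⊕ Fin n) (𝒟.D i) := fun i =>
    Matrix.fromBlocks (embD 𝒟 i p) 0 0 1
  let Q' : ∀ i, Matrix (κ ⊕ Fin n) (κ ⊕ Fin n) (𝒟.D i) := fun i =>
    Matrix.fromBlocks (embD 𝒟 i q) 0 0 1
  have hP' : ∀ i, (P' i).map (𝒟.D i).subtype
      = Matrix.fromBlocks (p.map 𝒟.emb) 0 0 (1 : Matrix (Fin n) (Fin n) 𝒟.A) := by
    intro i
    change (Matrix.fromBlocks (embD 𝒟 i p) 0 0 1).map (𝒟.D i).subtype = _
    rw [fromBlocks_map', one_map']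
    rfl
  have hQ' : ∀ i, (Q' i).map (𝒟.D i).subtype
      = Matrix.fromBlocks (q.map 𝒟.emb) 0 0 (1 : Matrix (Fin n) (Fin n) 𝒟.A) := by
    intro i
    change (Matrix.fromBlocks (embD 𝒟 i q) 0 0 1).map (𝒟.D i).subtype = _
    rw [fromBlocks_map', one_map']
    rfl
  obtain ⟨i, w, hw1, hw2⟩ := exists_stage' 𝒟 v hv1 hv2 P' Q' hP' hQ'
    (show (0 : ℝ) < 1 / 100 by norm_num)
  refine ⟨i, ?_⟩
  have hPpr : IsPr (P' i) := (embD_pr 𝒟 i hp).fromBlocks IsPr.one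
  have hQpr : IsPr (Q' i) := (embD_pr 𝒟 i hq).fromBlocks IsPr.one
  have heqv : Eqv (PsiM 𝒟 i (P' i)) (PsiM 𝒟 i (Q' i)) := by
    refine eqv_of_near _ _ (PsiM 𝒟 i w) (PsiM_pr 𝒟 i hPpr) (PsiM_pr 𝒟 i hQpr) (1 / 100) le_rfl
      ?_ ?_
    · intro x
      rw [← PsiM_conjT, ← PsiM_mul, ← PsiM_sub]
      exact hw2 x
    · intro x
      rw [← PsiM_conjT, ← PsiM_mul, ← PsiM_sub]
      exact hw1 x
  have hk := heqv.kcl_eq
  change kcl (PsiM 𝒟 i (Matrix.fromBlocks (embD 𝒟 i p) 0 0 1))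
    = kcl (PsiM 𝒟 i (Matrix.fromBlocks (embD 𝒟 i q) 0 0 1)) at hk
  rw [kcl_PsiM_fromBlocks 𝒟 i (embD_pr 𝒟 i hp) IsPr.one,
    kcl_PsiM_fromBlocks 𝒟 i (embD_pr 𝒟 i hq) IsPr.one, kcl_PsiM_embD 𝒟 i hp r hpr,
    kcl_PsiM_embD 𝒟 i hq s hqr] at hk
  exact add_right_cancel hk

theorem rk_ek (x : XX) (k : ℕ) : rk x (ek k) = 1 := by
  unfold ek
  rw [rk_kcl x _ (ee_pr _), ee_trace]

theorem kcl_LL : kcl LL = 1 - Yc JJ none := by
  unfold Yc LL
  rw [pb_kcl _ taut_pr]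
  ring

theorem rk_LL (x : XX) : rk x (kcl LL) = 1 := by
  rw [rk_kcl x _ LL_pr]
  exact CPd.tr (x none)

theorem trace_of_rk {ι : Type} [Fintype ι] [DecidableEq ι] {p : Matrix ι ι C(XX, ℂ)} (hp : IsPr p)
    (r : ℕ) {a : K0 C(XX, ℂ)} (ha : kcl p = a) (h : ∀ x, rk x a = r) (x : XX) :
    (evM x p).trace = r := by
  rw [← rk_kcl x p hp, ha, h]

theorem emb_inj (𝒟 : AlgData) (hq2 : QuantStmt2) (m k : ℤ)
    (h : K0.map 𝒟.emb ((m : K0 C(XX, ℂ)) + k * (kcl LL - 1)) = 0) : m = 0 ∧ k = 0 := by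
  obtain ⟨m₁, m₂, hm⟩ : ∃ m₁ m₂ : ℕ, m = (m₁ : ℤ) - m₂ := ⟨m.toNat, (-m).toNat, by omega⟩
  obtain ⟨k₁, k₂, hk⟩ : ∃ k₁ k₂ : ℕ, k = (k₁ : ℤ) - k₂ := ⟨k.toNat, (-k).toNat, by omega⟩
  have mk : ∀ a b c : ℕ, ∃ p : Matrix (Fin a ⊕ (Fin b × Fin 2 ⊕ Fin c))
      (Fin a ⊕ (Fin b × Fin 2 ⊕ Fin c)) C(XX, ℂ), IsPr p ∧ kcl p = a + (b * kcl LL + c) := by
    intro a b c
    have h1 : IsPr ((1 : Matrix (Fin b) (Fin b) C(XX, ℂ)) ⊗ₖ LL) := IsPr.one.kron LL_pr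
    refine ⟨Matrix.fromBlocks 1 0 0 (Matrix.fromBlocks
      ((1 : Matrix (Fin b) (Fin b) C(XX, ℂ)) ⊗ₖ LL) 0 0 1),
      IsPr.one.fromBlocks (h1.fromBlocks IsPr.one), ?_⟩
    rw [kcl_fromBlocks IsPr.one (h1.fromBlocks IsPr.one), kcl_fromBlocks h1 IsPr.one,
      kcl_kron IsPr.one LL_pr, kcl_one, kcl_one, kcl_one]
    simp
  obtain ⟨p, hp, hpk⟩ := mk m₁ k₁ k₂
  obtain ⟨q, hq, hqk⟩ := mk m₂ k₂ k₁
  have hpr : ∀ x, (evM x p).trace = ((m₁ + (k₁ + k₂) : ℕ) : ℂ) :=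
    trace_of_rk hp _ hpk fun x => by
      rw [map_add, map_add, map_mul, map_natCast, map_natCast, map_natCast, rk_LL]
      push_cast
      ring
  have hqr : ∀ x, (evM x q).trace = ((m₂ + (k₂ + k₁) : ℕ) : ℂ) :=
    trace_of_rk hq _ hqk fun x => by
      rw [map_add, map_add, map_mul, map_natCast, map_natCast, map_natCast, rk_LL]
      push_cast
      ring
  have hdiff : (m : K0 C(XX, ℂ)) + k * (kcl LL - 1) = kcl p - kcl q := by
    rw [hpk, hqk, hm, hk]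
    push_cast
    ring
  rw [hdiff, map_sub, sub_eq_zero] at h
  obtain ⟨i, hi⟩ := emb_descend 𝒟 hp hq _ _ hpr hqr h
  have hi' : (m : K0 C(XX, ℂ)) + k * (kcl LL - 1)
      + m * ∑ k ∈ (Finset.range (2 ^ i)).erase 0, ek k = 0 := by
    rw [hdiff]
    have : (m : K0 C(XX, ℂ)) = ((m₁ + (k₁ + k₂) : ℕ) : K0 C(XX, ℂ))
        - ((m₂ + (k₂ + k₁) : ℕ) : K0 C(XX, ℂ)) := by
      rw [hm]
      push_cast
      ring
    rw [this]
    linear_combination hi
  have hm0 : m = 0 := by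
    let x : XX := fun _ => CPd.pt01
    have h1 := congrArg (rk x) hi'
    have h2 : rk x (∑ k ∈ (Finset.range (2 ^ i)).erase 0, ek k) = (2 : ℂ) ^ i - 1 := by
      rw [map_sum, Finset.sum_congr rfl fun k _ => rk_ek x k, Finset.sum_const,
        Finset.card_erase_of_mem (Finset.mem_range.2 (by positivity)), Finset.card_range]
      rw [nsmul_eq_mul, mul_one, Nat.cast_sub Nat.one_le_two_pow]
      push_cast
      ring
    rw [map_add, map_add, map_mul, map_mul, h2, map_sub, rk_LL, map_one, map_intCast,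
      map_intCast, map_zero, sub_self, mul_zero, add_zero] at h1
    have h3 : (m : ℂ) * 2 ^ i = 0 := by linear_combination h1
    have h4 : (m : ℂ) = 0 := by
      rcases mul_eq_zero.1 h3 with h5 | h5
      · exact h5
      · exact absurd h5 (by positivity)
    exact_mod_cast h4
  refine ⟨hm0, ?_⟩
  by_contra hk0
  rw [hm0, kcl_LL] at hi'
  have h5 : (k : K0 C(XX, ℂ)) * Yc JJ none = 0 := by
    push_cast at hi'
    linear_combination -hi'
  have h6 : ((k.natAbs : ℕ) : K0 C(XX, ℂ)) * ∏ c ∈ ({none} : Finset JJ), Yc JJ c = 0 := by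
    rw [Finset.prod_singleton]
    rcases Int.natAbs_eq k with h7 | h7
    · have h8 : (k : K0 C(XX, ℂ)) = ((k.natAbs : ℕ) : K0 C(XX, ℂ)) := by
        conv_lhs => rw [h7]
        rw [Int.cast_natCast]
      rw [← h8, h5]
    · have h8 : (k : K0 C(XX, ℂ)) = -((k.natAbs : ℕ) : K0 C(XX, ℂ)) := by
        conv_lhs => rw [h7]
        rw [Int.cast_neg, Int.cast_natCast]
      rw [h8] at h5
      linear_combination -h5
  exact Yc_prod_ne hq2 JJ {none} k.natAbs (by omega) h6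

end Pool.Agent.Helper75.KT
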