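import Mathlib
import Pool.Agent.Helper32.NodeRing
import Pool.Agent.Helper32.Nodal.Final

open MvPolynomial Pool.Agent.Helper32.NodeRing

namespace Pool.Agent.Helper32.Red

/-- Extend a central ring hom, inverting nonzero elements, to the fraction field. -/
lemma exists_fieldHom {C F E : Type*} [CommRing C] [IsDomain C] [Field F] [Algebra C F]
    [IsFractionRing C F] [Ring E] (φ : C →+* E)
    (hc : ∀ c e, φ c * e = e * φ c) (hu : ∀ c, c ≠ 0 → IsUnit (φ c)) :
    ∃ Φ : F →+* E, (∀ c, Φ (algebraMap C _ c) = φ c) ∧
      ∀ z e, Φ z * e = e * Φ z := by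
  let φ' : C →+* Subring.center E :=
    φ.codRestrict (Subring.center E) (fun c => Subring.mem_center_iff.2 (fun e => (hc c e).symm))
  have hu' : ∀ y : nonZeroDivisors C, IsUnit (φ' y) := by
    intro y
    obtain ⟨v, hv⟩ := hu y (nonZeroDivisors.ne_zero y.2)
    have hcomm : ∀ e : E, e * (↑v⁻¹ : E) = (↑v⁻¹ : E) * e := by
      intro e
      have h1 : Commute (v : E) e := by
        rw [hv]; exact hc _ _
      exact h1.units_inv_left.symm
    rw [isUnit_iff_exists_inv]
    refine ⟨⟨↑v⁻¹, Subring.mem_center_iff.2 hcomm⟩, ?_⟩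
    apply Subtype.ext
    change φ y * (↑v⁻¹ : E) = 1
    rw [← hv]; simp
  refine ⟨(Subring.center E).subtype.comp (IsLocalization.lift hu'), ?_, ?_⟩
  · intro c
    rw [RingHom.comp_apply, IsLocalization.lift_eq]
    rfl
  · intro z e
    exact (Subring.mem_center_iff.1 (IsLocalization.lift hu' z).2 e).symm

section

variable {k : Type*} [CommRing k] {M : Type*} [AddCommGroup M] [Module k M]

/-- The action of a scalar, as a linear map over the endomorphism ring. -/
def actE (a : k) : M →ₗ[Module.End k M] M where
  toFun m := a • m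
  map_add' := smul_add a
  map_smul' e m := ((e.map_smul a m).symm : a • e m = e (a • m))

@[simp] lemma actE_apply (a : k) (m : M) : actE a m = a • m := rfl

lemma actE_pow (a : k) (n : ℕ) (m : M) : ((actE a : M →ₗ[Module.End k M] M) ^ n) m = a ^ n • m := by
  induction n with
  | zero => simp
  | succ n ih => rw [pow_succ', Module.End.mul_apply, ih, actE_apply, smul_smul, ← pow_succ']

lemma dich [IsArtinian (Module.End k M) M] [IsNoetherian (Module.End k M) M]
    (hind : ∀ p q : Submodule k M, IsCompl p q → p = ⊥ ∨ q = ⊥) (a : k) :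
    (∃ n : ℕ, ∀ m : M, a ^ n • m = 0) ∨ Function.Bijective (fun m : M => a • m) := by
  obtain ⟨n, hn, hn1⟩ := ((LinearMap.eventually_isCompl_ker_pow_range_pow
    (actE a : M →ₗ[Module.End k M] M)).and (Filter.eventually_ge_atTop 1)).exists
  have hk : IsCompl ((LinearMap.ker ((actE a : M →ₗ[Module.End k M] M) ^ n)).restrictScalars k)
      ((LinearMap.range ((actE a : M →ₗ[Module.End k M] M) ^ n)).restrictScalars k) := by
    constructor
    · rw [Submodule.disjoint_def]
      intro m hm hm'
      exact Submodule.disjoint_def.1 hn.disjoint m hm hm'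
    · rw [codisjoint_iff, Submodule.eq_top_iff']
      intro m
      have h1 : m ∈ LinearMap.ker ((actE a : M →ₗ[Module.End k M] M) ^ n) ⊔
        LinearMap.range ((actE a : M →ₗ[Module.End k M] M) ^ n) := by
        rw [hn.sup_eq_top]; trivial
      obtain ⟨p, hp, q, hq, rfl⟩ := Submodule.mem_sup.1 h1
      exact Submodule.mem_sup.2 ⟨p, hp, q, hq, rfl⟩
  rcases hind _ _ hk with h | h
  · right
    have hker : LinearMap.ker ((actE a : M →ₗ[Module.End k M] M) ^ n) = ⊥ := by
      rw [Submodule.eq_bot_iff]
      intro m hm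
      have : m ∈ (LinearMap.ker ((actE a : M →ₗ[Module.End k M] M) ^ n)).restrictScalars k := hm
      rw [h] at this
      exact this
    have hinj : Function.Injective (actE a : M →ₗ[Module.End k M] M) := by
      rw [injective_iff_map_eq_zero]
      intro m hm
      have h1 : m ∈ LinearMap.ker ((actE a : M →ₗ[Module.End k M] M) ^ n) := by
        obtain ⟨j, rfl⟩ := Nat.exists_eq_add_of_le hn1
        rw [LinearMap.mem_ker, add_comm, pow_succ, Module.End.mul_apply, hm, map_zero]
      rw [hker] at h1
      exact h1
    exact IsArtinian.bijective_of_injective_endomorphism _ hinj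
  · left
    refine ⟨n, fun m => ?_⟩
    have : ((actE a : M →ₗ[Module.End k M] M) ^ n) m ∈
      (LinearMap.range ((actE a : M →ₗ[Module.End k M] M) ^ n)).restrictScalars k := ⟨m, rfl⟩
    rw [h] at this
    rw [← actE_pow]
    exact this

lemma nontriv_pow [Nontrivial M] {a : k} (hb : Function.Bijective (fun m : M => a • m))
    (n : ℕ) : Function.Bijective (fun m : M => a ^ n • m) := by
  induction n with
  | zero => simp only [pow_zero, one_smul]; exact Function.bijective_id
  | succ n ih =>
    have : (fun m : M => a ^ (n + 1) • m) = (fun m : M => a • m) ∘ (fun m : M => a ^ n • m) := by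
      ext m
      rw [Function.comp_apply, smul_smul, pow_succ']
    rw [this]
    exact hb.comp ih

/-- The ideal of elements acting nilpotently. -/
lemma prime_rad [Nontrivial M]
    (hd : ∀ a : k, (∃ n : ℕ, ∀ m : M, a ^ n • m = 0) ∨ Function.Bijective (fun m : M => a • m)) :
    (Module.annihilator k M).radical.IsPrime := by
  have hmem : ∀ a : k, a ∈ (Module.annihilator k M).radical ↔ ∃ n : ℕ, ∀ m : M, a ^ n • m = 0 := by
    intro a
    rw [Ideal.mem_radical_iff]
    simp only [Module.mem_annihilator]
  constructor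
  · intro h
    have h1 : (1 : k) ∈ (Module.annihilator k M).radical := by rw [h]; trivial
    rw [hmem] at h1
    obtain ⟨n, hn⟩ := h1
    obtain ⟨m, hm⟩ := exists_ne (0 : M)
    apply hm
    simpa using hn m
  · intro a b hab
    rw [hmem] at hab
    obtain ⟨n, hn⟩ := hab
    rcases hd a with ha | ha
    · exact Or.inl ((hmem a).2 ha)
    · right
      rw [hmem]
      refine ⟨n, fun m => ?_⟩
      apply (nontriv_pow ha n).1
      change a ^ n • b ^ n • m = a ^ n • (0 : M)
      rw [smul_zero, smul_smul, ← mul_pow, hn]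

lemma bij_of_not_mem [Nontrivial M]
    (hd : ∀ a : k, (∃ n : ℕ, ∀ m : M, a ^ n • m = 0) ∨ Function.Bijective (fun m : M => a • m))
    {a : k} (ha : a ∉ (Module.annihilator k M).radical) :
    Function.Bijective (fun m : M => a • m) := by
  rcases hd a with h | h
  · exfalso
    apply ha
    rw [Ideal.mem_radical_iff]
    simp only [Module.mem_annihilator]
    exact h
  · exact h

lemma isUnit_of_bij {a : k} (h : Function.Bijective (fun m : M => a • m)) :
    IsUnit (algebraMap k (Module.End k M) a) := by
  rw [Module.End.isUnit_iff]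
  exact h

/-- The case where all nonzero elements act bijectively. -/
lemma comm_of_bij [IsDomain k] [Nontrivial M]
    (hind : ∀ p q : Submodule k M, IsCompl p q → p = ⊥ ∨ q = ⊥)
    (hb : ∀ a : k, a ≠ 0 → Function.Bijective (fun m : M => a • m)) (e f : Module.End k M) :
    e * f = f * e := by
  obtain ⟨Φ, hΦ1, hΦ2⟩ := exists_fieldHom (F := FractionRing k) (algebraMap k (Module.End k M))
    (fun c e => Algebra.commutes c e) (fun c hc => isUnit_of_bij (hb c hc))
  let _ : Module (FractionRing k) M := Module.compHom M Φ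
  have hsm : ∀ (z : FractionRing k) (m : M), z • m = Φ z m := fun _ _ => rfl
  obtain ⟨m0, hm0⟩ := exists_ne (0 : M)
  obtain ⟨Q, hQ⟩ := (Submodule.span (FractionRing k) {m0}).exists_isCompl
  have hk : ∀ (N : Submodule (FractionRing k) M) (a : k) (m : M), m ∈ N → a • m ∈ N := by
    intro N a m hm
    have h1 := N.smul_mem (algebraMap k (FractionRing k) a) hm
    rw [hsm, hΦ1] at h1
    exact h1
  let toK : Submodule (FractionRing k) M → Submodule k M := fun N =>
    { carrier := N, add_mem' := N.add_mem, zero_mem' := N.zero_mem, smul_mem' := hk N }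
  have hc : IsCompl (toK (Submodule.span (FractionRing k) {m0})) (toK Q) := by
    constructor
    · rw [Submodule.disjoint_def]
      intro m hm hm'
      exact Submodule.disjoint_def.1 hQ.disjoint m hm hm'
    · rw [codisjoint_iff, Submodule.eq_top_iff']
      intro m
      have h1 : m ∈ Submodule.span (FractionRing k) {m0} ⊔ Q := by
        rw [hQ.sup_eq_top]; trivial
      obtain ⟨p, hp, q, hq, rfl⟩ := Submodule.mem_sup.1 h1
      exact Submodule.mem_sup.2 ⟨p, hp, q, hq, rfl⟩
  have hQ0 : Q = ⊥ := by
    rcases hind _ _ hc with h | h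
    · exfalso
      apply hm0
      have h1 : m0 ∈ toK (Submodule.span (FractionRing k) {m0}) :=
        Submodule.mem_span_singleton_self m0
      rw [h] at h1
      exact h1
    · rw [Submodule.eq_bot_iff]
      intro m hm
      have h1 : m ∈ toK Q := hm
      rw [h] at h1
      exact h1
  have htop : ∀ m : M, ∃ z : FractionRing k, z • m0 = m := by
    intro m
    have h1 : m ∈ Submodule.span (FractionRing k) {m0} ⊔ Q := by
      rw [hQ.sup_eq_top]; trivial
    rw [hQ0, sup_bot_eq, Submodule.mem_span_singleton] at h1
    exact h1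
  have hlin : ∀ (e : Module.End k M) (z : FractionRing k) (m : M), e (z • m) = z • e m := by
    intro e z m
    rw [hsm, hsm, ← Module.End.mul_apply, ← hΦ2, Module.End.mul_apply]
  apply LinearMap.ext
  intro m
  obtain ⟨z, rfl⟩ := htop m
  obtain ⟨a, ha⟩ := htop (e m0)
  obtain ⟨b, hb'⟩ := htop (f m0)
  rw [Module.End.mul_apply, Module.End.mul_apply, hlin, hlin, hlin, hlin, ← ha, ← hb', hlin, hlin,
    ← ha, ← hb', smul_smul b a, smul_smul a b, mul_comm b a]

end

end Pool.Agent.Helper32.Red
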