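import Mathlib
import Pool.Agent.Helper32.Reduction

open MvPolynomial Pool.Agent.Helper32.NodeRing

namespace Pool.Agent.Helper32.Red

lemma bA_mem (i n : ℕ) : sR i * X i ^ n ∈ A := by
  rw [mem_A]
  intro j
  by_cases h : j = i
  · subst h
    simp [ev_sR_zero, ev_sR_one]
  · rw [map_mul, map_mul, map_pow, map_pow, ev_sR_ne (Ne.symm h), ev_sR_ne (Ne.symm h),
      ev_X_ne (Ne.symm h), ev_X_ne (Ne.symm h)]

lemma aA_mem (i n : ℕ) : sR i * (1 - X i) ^ n ∈ A := by
  rw [mem_A]
  intro j
  by_cases h : j = i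
  · subst h
    simp [ev_sR_zero, ev_sR_one]
  · rw [map_mul, map_mul, map_pow, map_pow, map_sub, map_sub, map_one, map_one,
      ev_sR_ne (Ne.symm h), ev_sR_ne (Ne.symm h), ev_X_ne (Ne.symm h), ev_X_ne (Ne.symm h)]

noncomputable def bA (i n : ℕ) : A := ⟨sR i * X i ^ n, bA_mem i n⟩
noncomputable def aA (i n : ℕ) : A := ⟨sR i * (1 - X i) ^ n, aA_mem i n⟩

lemma coe_bA (i n : ℕ) : (bA i n : R) = sR i * X i ^ n := rfl
lemma coe_aA (i n : ℕ) : (aA i n : R) = sR i * (1 - X i) ^ n := rfl

lemma bA_one (i : ℕ) : bA i 1 = u i := by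
  ext1; rw [coe_bA, coe_u]; ring

lemma aA_one (i : ℕ) : aA i 1 = s i - u i := by
  ext1; rw [coe_aA, Subalgebra.coe_sub, coe_u, coe_s]; ring

lemma bA_succ (i n : ℕ) : bA i (n + 2) = bA i (n + 1) + s i * bA i n := by
  ext1
  rw [Subalgebra.coe_add, Subalgebra.coe_mul, coe_bA, coe_bA, coe_bA, coe_s, sR]; ring

lemma aA_succ (i n : ℕ) : aA i (n + 2) = aA i (n + 1) + s i * aA i n := by
  ext1
  rw [Subalgebra.coe_add, Subalgebra.coe_mul, coe_aA, coe_aA, coe_aA, coe_s, sR]; ring

lemma aA_mul_bA (i n : ℕ) : aA i n * bA i n = (-1) ^ n * s i ^ (n + 2) := by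
  ext1
  have h : ((((-1) ^ n : A) * s i ^ (n + 2) : A) : R) = (-1) ^ n * sR i ^ (n + 2) := by
    simp
  rw [h, Subalgebra.coe_mul, coe_aA, coe_bA]
  have h2 : (sR i : R) = - (X i * (1 - X i)) := by rw [sR]; ring
  have h3 : sR i * (1 - X i) ^ n * (sR i * X i ^ n) = sR i ^ 2 * (X i * (1 - X i)) ^ n := by
    rw [mul_pow]; ring
  rw [h3, pow_add, h2, neg_pow (X i * (1 - X i)) n, ← mul_assoc, ← mul_assoc, ← mul_pow]
  simp only [mul_neg, mul_one, neg_neg, one_pow, one_mul]
  ring

lemma rho_bA (i n : ℕ) : rho i (bA i n) = 0 := by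
  ext1; simp [coe_bA, ev_sR_zero]

lemma rho_aA (i n : ℕ) : rho i (aA i n) = 0 := by
  ext1; simp [coe_aA, ev_sR_zero]

/-- The kernel of `ρ_i`. -/
noncomputable def I (i : ℕ) : Ideal A := RingHom.ker (rho i)

lemma mem_I {i : ℕ} {f : A} : f ∈ I i ↔ rho i f = 0 := RingHom.mem_ker

lemma I_eq (i : ℕ) : I i = Ideal.span {s i, u i} := by
  ext f
  rw [mem_I, rho_eq_zero_iff]

lemma bA_sub (i n : ℕ) : bA i (n + 1) - u i ∈ I i ^ 2 := by
  induction n with
  | zero => rw [zero_add, bA_one, sub_self]; exact Submodule.zero_mem _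
  | succ n ih =>
    rw [bA_succ]
    have h : bA i (n + 1) + s i * bA i n - u i = (bA i (n + 1) - u i) + s i * bA i n := by ring
    rw [h, pow_two]
    rw [pow_two] at ih
    exact Ideal.add_mem _ ih (Ideal.mul_mem_mul (mem_I.2 (rho_s_self i)) (mem_I.2 (rho_bA i n)))

lemma aA_sub (i n : ℕ) : aA i (n + 1) - (s i - u i) ∈ I i ^ 2 := by
  induction n with
  | zero => rw [zero_add, aA_one, sub_self]; exact Submodule.zero_mem _
  | succ n ih =>
    rw [aA_succ]
    have h : aA i (n + 1) + s i * aA i n - (s i - u i) =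
      (aA i (n + 1) - (s i - u i)) + s i * aA i n := by ring
    rw [h, pow_two]
    rw [pow_two] at ih
    exact Ideal.add_mem _ ih (Ideal.mul_mem_mul (mem_I.2 (rho_s_self i)) (mem_I.2 (rho_aA i n)))

lemma I_le_sq (i n : ℕ) : I i ≤ Ideal.span {aA i (n + 1), bA i (n + 1)} ⊔ I i ^ 2 := by
  have hu : u i ∈ Ideal.span {aA i (n + 1), bA i (n + 1)} ⊔ I i ^ 2 := by
    have h : u i = bA i (n + 1) - (bA i (n + 1) - u i) := by ring
    rw [h]
    exact Ideal.sub_mem _ (Ideal.mem_sup_left (Ideal.subset_span (by simp)))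
      (Ideal.mem_sup_right (bA_sub i n))
  have hs : s i ∈ Ideal.span {aA i (n + 1), bA i (n + 1)} ⊔ I i ^ 2 := by
    have h : s i = aA i (n + 1) - (aA i (n + 1) - (s i - u i)) + u i := by ring
    rw [h]
    exact Ideal.add_mem _ (Ideal.sub_mem _ (Ideal.mem_sup_left (Ideal.subset_span (by simp)))
      (Ideal.mem_sup_right (aA_sub i n))) hu
  rw [I_eq, Ideal.span_le, ← I_eq]
  rintro x (rfl | rfl)
  · exact hs
  · exact hu

lemma I_le_pow (i n j : ℕ) : I i ≤ Ideal.span {aA i (n + 1), bA i (n + 1)} ⊔ I i ^ j := by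
  induction j with
  | zero => rw [pow_zero, Ideal.one_eq_top, sup_top_eq]; exact le_top
  | succ j ih =>
    calc I i ≤ Ideal.span {aA i (n + 1), bA i (n + 1)} ⊔ I i ^ 2 := I_le_sq i n
      _ ≤ Ideal.span {aA i (n + 1), bA i (n + 1)} ⊔
          I i * (Ideal.span {aA i (n + 1), bA i (n + 1)} ⊔ I i ^ j) := by
        rw [pow_two]
        exact sup_le_sup le_rfl (Ideal.mul_mono_right ih)
      _ ≤ Ideal.span {aA i (n + 1), bA i (n + 1)} ⊔ I i ^ (j + 1) := by
        rw [Ideal.mul_sup, ← pow_succ']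
        exact sup_le le_sup_left (sup_le (Ideal.mul_le_right.trans le_sup_left) le_sup_right)

lemma subring_eq_top (i n L : ℕ) (B : Subring A) (hC : ∀ f, rho i f ∈ B)
    (hx : aA i (n + 1) ∈ B) (hy : bA i (n + 1) ∈ B) (hL : ∀ f ∈ I i ^ L, f ∈ B) (f : A) :
    f ∈ B := by
  have key : ∀ j : ℕ, ∀ f : A, ∃ b ∈ B, f - b ∈ I i ^ j := by
    intro j
    induction j with
    | zero => intro f; exact ⟨0, B.zero_mem, by rw [pow_zero, Ideal.one_eq_top]; trivial⟩
    | succ j ih =>
      intro f
      have h1 : f - rho i f ∈ I i := by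
        rw [mem_I, map_sub, rho_rho_self, sub_self]
      obtain ⟨p, hp, q, hq, hpq⟩ := Submodule.mem_sup.1 (I_le_pow i n (j + 1) h1)
      obtain ⟨a, b, rfl⟩ := Ideal.mem_span_pair.1 hp
      obtain ⟨a', ha', haI⟩ := ih a
      obtain ⟨b', hb', hbI⟩ := ih b
      refine ⟨rho i f + (a' * aA i (n + 1) + b' * bA i (n + 1)),
        B.add_mem (hC f) (B.add_mem (B.mul_mem ha' hx) (B.mul_mem hb' hy)), ?_⟩
      have h2 : f - (rho i f + (a' * aA i (n + 1) + b' * bA i (n + 1))) =
          (a - a') * aA i (n + 1) + (b - b') * bA i (n + 1) + q := by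
        rw [← sub_sub, ← hpq]; ring
      rw [h2]
      refine Ideal.add_mem _ (Ideal.add_mem _ ?_ ?_) hq
      · rw [pow_succ]
        exact Ideal.mul_mem_mul haI (mem_I.2 (rho_aA i _))
      · rw [pow_succ]
        exact Ideal.mul_mem_mul hbI (mem_I.2 (rho_bA i _))
  obtain ⟨b, hb, hfb⟩ := key L f
  have h3 : f = (f - b) + b := by ring
  rw [h3]
  exact B.add_mem (hL _ hfb) hb

/-- The coefficient ring at the node `i`. -/
def Cr (i : ℕ) : Type := (rho i).range

noncomputable instance (i : ℕ) : CommRing (Cr i) := inferInstanceAs (CommRing (rho i).range)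
instance (i : ℕ) : IsDomain (Cr i) := inferInstanceAs (IsDomain (rho i).range)

noncomputable def toA (i : ℕ) : Cr i →+* A := (rho i).range.val.toRingHom

lemma toA_injective (i : ℕ) : Function.Injective (toA i) := Subtype.val_injective

lemma rho_toA (i : ℕ) (c : Cr i) : rho i (toA i c) = toA i c := by
  obtain ⟨_, f, rfl⟩ := c
  exact rho_rho_self i f

lemma exists_toA (i : ℕ) (f : A) : ∃ c, toA i c = rho i f := ⟨⟨rho i f, f, rfl⟩, rfl⟩

/-- The coefficient field at the node `i`. -/
def kap (i : ℕ) : Type := FractionRing (Cr i)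

noncomputable instance (i : ℕ) : Field (kap i) := inferInstanceAs (Field (FractionRing (Cr i)))
noncomputable instance (i : ℕ) : Algebra (Cr i) (kap i) :=
  inferInstanceAs (Algebra (Cr i) (FractionRing (Cr i)))
instance (i : ℕ) : IsFractionRing (Cr i) (kap i) :=
  inferInstanceAs (IsFractionRing (Cr i) (FractionRing (Cr i)))

section

variable {M : Type*} [AddCommGroup M] [Module k M]

/-- The scalars preserving an additive subgroup. -/
noncomputable def stab (P : AddSubgroup M) : Subring A where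
  carrier := {f | ∀ p ∈ P, algebraMap A k f • p ∈ P}
  mul_mem' := by
    intro a b ha hb p hp
    rw [map_mul, mul_smul]
    exact ha _ (hb p hp)
  one_mem' := by
    intro p hp
    rw [map_one, one_smul]; exact hp
  add_mem' := by
    intro a b ha hb p hp
    rw [map_add, add_smul]
    exact P.add_mem (ha p hp) (hb p hp)
  zero_mem' := by
    intro p _
    rw [map_zero, zero_smul]; exact P.zero_mem
  neg_mem' := by
    intro a ha p hp
    rw [map_neg, neg_smul]
    exact P.neg_mem (ha p hp)

lemma stable_A (i n L : ℕ) (P : AddSubgroup M)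
    (hC : ∀ f : A, ∀ p ∈ P, algebraMap A k (rho i f) • p ∈ P)
    (hx : ∀ p ∈ P, algebraMap A k (aA i (n + 1)) • p ∈ P)
    (hy : ∀ p ∈ P, algebraMap A k (bA i (n + 1)) • p ∈ P)
    (hL : ∀ f ∈ I i ^ L, ∀ m : M, algebraMap A k f • m = 0) :
    ∀ f : A, ∀ p ∈ P, algebraMap A k f • p ∈ P := by
  intro f
  have := subring_eq_top i n L (stab P) hC hx hy (fun f hf p _ => by
    rw [hL f hf]; exact P.zero_mem) f
  exact this

lemma stable_k (P Q : AddSubgroup M) (hsum : ∀ m : M, ∃ p ∈ P, ∃ q ∈ Q, p + q = m)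
    (hdis : ∀ m ∈ P, m ∈ Q → m = 0)
    (hP : ∀ f : A, ∀ p ∈ P, algebraMap A k f • p ∈ P)
    (hQ : ∀ f : A, ∀ p ∈ Q, algebraMap A k f • p ∈ Q) (z : k) (p : M) (hp : p ∈ P) :
    z • p ∈ P := by
  obtain ⟨f, σ, rfl⟩ := IsLocalization.exists_mk'_eq S z
  obtain ⟨p', hp', q', hq', hpq⟩ := hsum (IsLocalization.mk' k f σ • p)
  have h1 : algebraMap A k σ • (p' + q') = algebraMap A k f • p := by
    rw [hpq, smul_smul, mul_comm, IsLocalization.mk'_spec]
  have h2 : algebraMap A k σ • q' ∈ P := by
    have : algebraMap A k (σ : A) • q' = algebraMap A k f • p - algebraMap A k (σ : A) • p' := by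
      rw [← h1, smul_add]; abel
    rw [this]
    exact P.sub_mem (hP f p hp) (hP _ p' hp')
  have h3 := hdis _ h2 (hQ _ q' hq')
  obtain ⟨v, hv⟩ := (IsLocalization.map_units k σ).exists_left_inv
  have h4 : q' = 0 := by
    have : v • algebraMap A k (σ : A) • q' = 0 := by rw [h3, smul_zero]
    rwa [smul_smul, hv, one_smul] at this
  rw [← hpq, h4, add_zero]
  exact hp'

lemma not_mem_mm {i : ℕ} {c : A} (hc : rho i c = c) (h0 : c ≠ 0) : algebraMap A k c ∉ mm i := by
  intro h
  have h1 := res_eq_zero_of_mem h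
  rw [res_algebraMap] at h1
  have h2 : ev i 0 (c : R) = 0 := (IsFractionRing.injective R K) (by rw [h1, map_zero])
  apply h0
  rw [← hc]
  exact Subtype.ext h2

lemma exists_pow_kills {i : ℕ} (hrad : (Module.annihilator k M).radical = mm i) :
    ∃ L : ℕ, ∀ f ∈ I i ^ L, ∀ m : M, algebraMap A k f • m = 0 := by
  have h1 : I i ≤ ((Module.annihilator k M).comap (algebraMap A k)).radical := by
    intro f hf
    have h2 : algebraMap A k f ∈ (Module.annihilator k M).radical := by
      rw [hrad]; exact algebraMap_mem_mm (mem_I.1 hf)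
    rw [Ideal.mem_radical_iff] at h2 ⊢
    obtain ⟨n, hn⟩ := h2
    refine ⟨n, ?_⟩
    rw [Ideal.mem_comap, map_pow]
    exact hn
  have hfg : (I i).FG := by
    classical
    refine ⟨{s i, u i}, ?_⟩
    rw [I_eq, Finset.coe_insert, Finset.coe_singleton]
  obtain ⟨L, hL⟩ := Ideal.exists_pow_le_of_le_radical_of_fg h1 hfg
  refine ⟨L, fun f hf m => ?_⟩
  have h3 := hL hf
  rw [Ideal.mem_comap, Module.mem_annihilator] at h3
  exact h3 m

lemma smul_mem_of_mul {i L : ℕ} (hL : ∀ f ∈ I i ^ L, ∀ m : M, algebraMap A k f • m = 0)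
    {b : A} (hb : rho i b = b) (hb0 : b ≠ 0) (z m : M) (hz : algebraMap A k b • z = m) :
    z ∈ Submodule.span k {m} := by
  have hc : b + s i ∈ S := by
    rw [← hb]
    apply rho_add_s_mem
    rw [hb]; exact hb0
  obtain ⟨w, hw⟩ := (IsLocalization.map_units k (⟨_, hc⟩ : S)).exists_left_inv
  have hz2 : z = w • m + (w * algebraMap A k (s i)) • z := by
    have h1 : algebraMap A k (b + s i) • z = m + algebraMap A k (s i) • z := by
      rw [map_add, add_smul, hz]
    have h2 : w • algebraMap A k (b + s i) • z = w • (m + algebraMap A k (s i) • z) := by rw [h1]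
    rw [smul_smul] at h2
    have hw' : w * algebraMap A k (b + s i) = 1 := hw
    rw [hw', one_smul, smul_add, smul_smul] at h2
    exact h2
  have key : ∀ j : ℕ, ∃ r q : k, z = r • m + (q * algebraMap A k (s i) ^ j) • z := by
    intro j
    induction j with
    | zero => exact ⟨0, 1, by simp⟩
    | succ j ih =>
      obtain ⟨r, q, h⟩ := ih
      refine ⟨r + q * algebraMap A k (s i) ^ j * w, q * w, ?_⟩
      have h3 : (q * algebraMap A k (s i) ^ j) • z = (q * algebraMap A k (s i) ^ j) •
        (w • m + (w * algebraMap A k (s i)) • z) := by rw [← hz2]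
      rw [h3, smul_add, smul_smul, smul_smul] at h
      rw [add_smul, add_assoc, pow_succ]
      convert h using 3
      congr 1
      ring
  obtain ⟨r, q, h⟩ := key L
  have h4 : (algebraMap A k (s i) ^ L) • z = 0 := by
    rw [← map_pow]
    exact hL _ (Ideal.pow_mem_pow (mem_I.2 (rho_s_self i)) L) z
  rw [mul_smul, h4, smul_zero, add_zero] at h
  rw [h]
  exact Submodule.smul_mem _ _ (Submodule.mem_span_singleton_self m)

/-- The case of a module supported at a node. -/
theorem node_case [Nontrivial M] [IsArtinian (Module.End k M) M] [IsNoetherian (Module.End k M) M]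
    (hind : ∀ p q : Submodule k M, IsCompl p q → p = ⊥ ∨ q = ⊥)
    (hinf : ¬ Module.Finite k M) (i : ℕ) (hrad : (Module.annihilator k M).radical = mm i) :
    ∃ r : ℕ, ∀ l : List (Module.End k M × Module.End k M), l.length = r →
      (l.map (fun p => p.1 * p.2 - p.2 * p.1)).prod = 0 := by
  classical
  have hd := dich (k := k) (M := M) hind
  obtain ⟨L, hL⟩ := exists_pow_kills (M := M) hrad
  let φ : Cr i →+* Module.End k M :=
    (algebraMap k (Module.End k M)).comp ((algebraMap A k).comp (toA i))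
  have hφ : ∀ (c : Cr i) (m : M), φ c m = algebraMap A k (toA i c) • m := fun _ _ => rfl
  have hφ1 : ∀ (c : Cr i) (e : Module.End k M), φ c * e = e * φ c := fun c e =>
    Algebra.commutes (algebraMap A k (toA i c)) e
  have hφ2 : ∀ c : Cr i, c ≠ 0 → IsUnit (φ c) := by
    intro c hc
    change IsUnit (algebraMap k (Module.End k M) (algebraMap A k (toA i c)))
    apply isUnit_of_bij
    apply bij_of_not_mem hd
    rw [hrad]
    apply not_mem_mm (rho_toA i c)
    intro h
    exact hc (toA_injective i (by rw [h, map_zero]))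
  obtain ⟨Φ, hΦ1, hΦ2⟩ := exists_fieldHom (F := kap i) φ hφ1 hφ2
  let _ : Algebra (kap i) (Module.End k M) := Φ.toAlgebra' hΦ2
  let _ : Module (kap i) M := Module.compHom M Φ
  have hsm : ∀ (z : kap i) (m : M), z • m = Φ z m := fun _ _ => rfl
  have hst : IsScalarTower (kap i) (Module.End k M) M := ⟨fun _ _ _ => rfl⟩
  have hCs : ∀ (c : Cr i) (m : M),
      algebraMap (Cr i) (kap i) c • m = algebraMap A k (toA i c) • m := by
    intro c m
    rw [hsm, hΦ1, hφ]
  have hxy0 : ∀ m : M, algebraMap A k (aA i (L + 1)) • algebraMap A k (bA i (L + 1)) • m = 0 := by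
    intro m
    rw [smul_smul, ← map_mul, aA_mul_bA]
    apply hL
    apply Ideal.mul_mem_left
    have h1 : s i ^ (L + 1 + 2) = s i ^ 3 * s i ^ L := by ring
    rw [h1]
    exact Ideal.mul_mem_left _ _ (Ideal.pow_mem_pow (mem_I.2 (rho_s_self i)) L)
  have hyx0 : ∀ m : M, algebraMap A k (bA i (L + 1)) • algebraMap A k (aA i (L + 1)) • m = 0 := by
    intro m
    rw [smul_comm]; exact hxy0 m
  have main := Nodal.nodal_commutators (kap i)
    (actE (algebraMap A k (aA i (L + 1))) : M →ₗ[Module.End k M] M)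
    (actE (algebraMap A k (bA i (L + 1))) : M →ₗ[Module.End k M] M) hyx0 hxy0 ?_ ?_
  · obtain ⟨r, hr⟩ := main
    refine ⟨r, fun l hl => ?_⟩
    apply LinearMap.ext
    intro m
    exact hr l hl m
  · intro P Q hPQ hPx hPy hQx hQy
    have hsum : ∀ m : M, ∃ p ∈ P, ∃ q ∈ Q, p + q = m := by
      intro m
      have h1 : m ∈ P ⊔ Q := by rw [hPQ.sup_eq_top]; trivial
      exact Submodule.mem_sup.1 h1
    have hdis : ∀ m ∈ P, m ∈ Q → m = 0 := fun m hm hm' =>
      Submodule.disjoint_def.1 hPQ.disjoint m hm hm'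
    have hCst : ∀ P : Submodule (kap i) M, ∀ f : A, ∀ p ∈ P.toAddSubgroup,
        algebraMap A k (rho i f) • p ∈ P.toAddSubgroup := by
      intro P f p hp
      obtain ⟨c, hc⟩ := exists_toA i f
      have h1 := P.smul_mem (algebraMap (Cr i) (kap i) c) hp
      rw [hCs, hc] at h1
      exact h1
    have hPA := stable_A i L L P.toAddSubgroup (hCst P) hPx hPy hL
    have hQA := stable_A i L L Q.toAddSubgroup (hCst Q) hQx hQy hL
    have hPk := stable_k P.toAddSubgroup Q.toAddSubgroup hsum hdis hPA hQA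
    have hQk := stable_k Q.toAddSubgroup P.toAddSubgroup
      (fun m => by
        obtain ⟨p, hp, q, hq, h⟩ := hsum m
        exact ⟨q, hq, p, hp, by rw [add_comm]; exact h⟩)
      (fun m hm hm' => hdis m hm' hm) hQA hPA
    let P' : Submodule k M :=
      { carrier := P, add_mem' := P.add_mem, zero_mem' := P.zero_mem,
        smul_mem' := fun z p hp => hPk z p hp }
    let Q' : Submodule k M :=
      { carrier := Q, add_mem' := Q.add_mem, zero_mem' := Q.zero_mem,
        smul_mem' := fun z p hp => hQk z p hp }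
    have hc : IsCompl P' Q' := by
      constructor
      · rw [Submodule.disjoint_def]
        intro m hm hm'
        exact hdis m hm hm'
      · rw [codisjoint_iff, Submodule.eq_top_iff']
        intro m
        exact Submodule.mem_sup.2 (hsum m)
    rcases hind P' Q' hc with h | h
    · left
      rw [Submodule.eq_bot_iff]
      intro m hm
      have h1 : m ∈ P' := hm
      rw [h] at h1
      exact h1
    · right
      rw [Submodule.eq_bot_iff]
      intro m hm
      have h1 : m ∈ Q' := hm
      rw [h] at h1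
      exact h1
  · intro hfin
    apply hinf
    obtain ⟨X, hX⟩ := hfin.fg_top
    refine ⟨⟨X, ?_⟩⟩
    rw [Submodule.eq_top_iff']
    intro m
    have hm : m ∈ Submodule.span (kap i) (X : Set M) := by rw [hX]; trivial
    induction hm using Submodule.span_induction with
    | mem x hx => exact Submodule.subset_span hx
    | zero => exact Submodule.zero_mem _
    | add x y _ _ hx hy => exact Submodule.add_mem _ hx hy
    | smul z x _ hx =>
      obtain ⟨a, b, rfl⟩ := IsLocalization.exists_mk'_eq (nonZeroDivisors (Cr i)) z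
      have hb0 : toA i (b : Cr i) ≠ 0 := by
        intro h
        exact nonZeroDivisors.ne_zero b.2 (toA_injective i (by rw [h, map_zero]))
      have h1 : algebraMap A k (toA i (b : Cr i)) •
          (IsLocalization.mk' (kap i) a b • x) = algebraMap A k (toA i a) • x := by
        rw [← hCs, ← hCs, smul_smul, mul_comm, IsLocalization.mk'_spec]
      have h2 := smul_mem_of_mul hL (rho_toA i b) hb0 _ _ h1
      have h3 : Submodule.span k {algebraMap A k (toA i a) • x} ≤
          Submodule.span k (X : Set M) := by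
        rw [Submodule.span_le, Set.singleton_subset_iff]
        exact Submodule.smul_mem _ _ hx
      exact h3 h2

/-- Every non-finitely-generated indecomposable module of finite endolength over `k` has an
endomorphism ring in which all products of `r` commutators vanish, for some `r`. -/
theorem commutators_vanish [Nontrivial M]
    (hind : ∀ p q : Submodule k M, IsCompl p q → p = ⊥ ∨ q = ⊥)
    (hinf : ¬ Module.Finite k M) (hlen : Module.length (Module.End k M) M < ⊤) :
    ∃ r : ℕ, ∀ l : List (Module.End k M × Module.End k M), l.length = r →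
      (l.map (fun p => p.1 * p.2 - p.2 * p.1)).prod = 0 := by
  have hfl : IsFiniteLength (Module.End k M) M := Module.length_ne_top_iff.1 hlen.ne
  obtain ⟨hN, hA⟩ := isFiniteLength_iff_isNoetherian_isArtinian.1 hfl
  have hd := dich (k := k) (M := M) hind
  by_cases h0 : (Module.annihilator k M).radical = ⊥
  · refine ⟨1, fun l hl => ?_⟩
    obtain ⟨p, rfl⟩ := List.length_eq_one_iff.1 hl
    have := comm_of_bij hind (fun a ha => bij_of_not_mem hd (by rw [h0]; exact ha)) p.1 p.2
    simp [this]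
  · obtain ⟨i, hi⟩ := eq_mm_of_prime (prime_rad hd) h0
    exact node_case hind hinf i hi

end

end Pool.Agent.Helper32.Red
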