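import Mathlib

namespace Pool.Agent.Helper32

/-- For every `r` there is a multilinear expression, with coefficient `1` at the identity
permutation, all of whose values are products of `r` commutators. -/
theorem exists_multilinear (E : Type*) [Ring E] (r : ℕ) :
    ∃ (n : ℕ) (c : Equiv.Perm (Fin n) → ℤ), c 1 = 1 ∧ ∀ x : Fin n → E, ∃ l : List (E × E),
      l.length = r ∧ ∑ σ : Equiv.Perm (Fin n), c σ • (List.ofFn (fun i => x (σ i))).prod =
        (l.map (fun p => p.1 * p.2 - p.2 * p.1)).prod := by
  induction r with
  | zero =>
    refine ⟨0, fun _ => 1, rfl, fun x => ⟨[], rfl, ?_⟩⟩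
    simp
  | succ r ih =>
    obtain ⟨n, c, hc1, hc⟩ := ih
    let c' : Fin (n + 2) → Fin (n + 1) → Equiv.Perm (Fin n) → ℤ := fun p q σ =>
      if q = 0 then (if p = 0 then c σ else if p = 1 then - c σ else 0) else 0
    refine ⟨n + 2, fun τ => c' (Equiv.Perm.decomposeFin τ).1
      (Equiv.Perm.decomposeFin (Equiv.Perm.decomposeFin τ).2).1
      (Equiv.Perm.decomposeFin (Equiv.Perm.decomposeFin τ).2).2, ?_, ?_⟩
    · have h : ∀ m : ℕ, Equiv.Perm.decomposeFin (1 : Equiv.Perm (Fin (m + 1))) = (0, 1) := by
        intro m
        apply Equiv.Perm.decomposeFin.symm.injective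
        rw [Equiv.symm_apply_apply, Equiv.Perm.decomposeFin_symm_of_one, Equiv.swap_self]
        rfl
      simp only [h, c', if_true, hc1]
    · intro x
      obtain ⟨l, hl, hsum⟩ := hc (fun i => x i.succ.succ)
      refine ⟨(x 0, x 1) :: l, by simp [hl], ?_⟩
      rw [List.map_cons, List.prod_cons, ← hsum]
      rw [← Equiv.sum_comp Equiv.Perm.decomposeFin.symm, Fintype.sum_prod_type]
      have key : ∀ p : Fin (n + 2),
          ∑ e : Equiv.Perm (Fin (n + 1)),
            (c' (Equiv.Perm.decomposeFin (Equiv.Perm.decomposeFin.symm (p, e))).1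
              (Equiv.Perm.decomposeFin
                (Equiv.Perm.decomposeFin (Equiv.Perm.decomposeFin.symm (p, e))).2).1
              (Equiv.Perm.decomposeFin
                (Equiv.Perm.decomposeFin (Equiv.Perm.decomposeFin.symm (p, e))).2).2) •
              (List.ofFn (fun i => x (Equiv.Perm.decomposeFin.symm (p, e) i))).prod =
          ∑ σ : Equiv.Perm (Fin n), c' p 0 σ • (List.ofFn (fun i =>
            x (Equiv.Perm.decomposeFin.symm
              (p, Equiv.Perm.decomposeFin.symm (0, σ)) i))).prod := by
        intro p
        rw [← Equiv.sum_comp Equiv.Perm.decomposeFin.symm, Fintype.sum_prod_type]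
        rw [Finset.sum_eq_single_of_mem 0 (Finset.mem_univ _)]
        · simp only [Equiv.apply_symm_apply]
        · intro q _ hq
          apply Finset.sum_eq_zero
          intro σ _
          simp only [Equiv.apply_symm_apply, c', if_neg hq, zero_smul]
      rw [Finset.sum_congr rfl (fun p _ => key p)]
      have hsub : ∑ p : Fin (n + 2), ∑ σ : Equiv.Perm (Fin n), c' p 0 σ • (List.ofFn (fun i =>
            x (Equiv.Perm.decomposeFin.symm
              (p, Equiv.Perm.decomposeFin.symm (0, σ)) i))).prod =
          ∑ p ∈ ({0, 1} : Finset (Fin (n + 2))), ∑ σ : Equiv.Perm (Fin n),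
            c' p 0 σ • (List.ofFn (fun i =>
            x (Equiv.Perm.decomposeFin.symm
              (p, Equiv.Perm.decomposeFin.symm (0, σ)) i))).prod := by
        symm
        apply Finset.sum_subset (Finset.subset_univ _)
        intro p _ hp
        have hp0 : p ≠ 0 := fun h => hp (by simp [h])
        have hp1 : p ≠ 1 := fun h => hp (by simp [h])
        apply Finset.sum_eq_zero
        intro σ _
        simp only [c', if_true, if_neg hp0, if_neg hp1, zero_smul]
      rw [hsub]
      have h01 : (0 : Fin (n + 2)) ≠ 1 := by
        intro h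
        have := congrArg Fin.val h
        simp at this
      rw [Finset.sum_pair h01]
      have e0 : ∀ σ : Equiv.Perm (Fin n), (List.ofFn (fun i =>
            x (Equiv.Perm.decomposeFin.symm
              ((0 : Fin (n + 2)), Equiv.Perm.decomposeFin.symm (0, σ)) i))).prod =
          x 0 * x 1 * (List.ofFn (fun i => x (σ i).succ.succ)).prod := by
        intro σ
        rw [List.ofFn_succ, List.ofFn_succ, List.prod_cons, List.prod_cons, mul_assoc]
        simp
      have e1 : ∀ σ : Equiv.Perm (Fin n), (List.ofFn (fun i =>
            x (Equiv.Perm.decomposeFin.symm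
              ((1 : Fin (n + 2)), Equiv.Perm.decomposeFin.symm (0, σ)) i))).prod =
          x 1 * x 0 * (List.ofFn (fun i => x (σ i).succ.succ)).prod := by
        intro σ
        rw [List.ofFn_succ, List.ofFn_succ, List.prod_cons, List.prod_cons, mul_assoc]
        have h3 : ∀ i : Fin n, Equiv.swap (0 : Fin (n + 2)) 1 (i.succ.succ) = i.succ.succ := by
          intro i
          apply Equiv.swap_apply_of_ne_of_ne
          · exact Fin.succ_ne_zero _
          · intro h
            have := congrArg Fin.val h
            simp at this
        simp [h3]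
      simp only [e0, e1]
      simp only [c', if_true, if_neg h01.symm, neg_smul, Finset.sum_neg_distrib]
      rw [sub_mul, Finset.mul_sum, Finset.mul_sum, ← sub_eq_add_neg]
      simp only [mul_smul_comm]

end Pool.Agent.Helper32
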